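import Pool.Agent.Helper20.D4.RDefs
import Pool.Agent.Helper12.D4.Ai

/-!
# Project D4 (MP_e1889a_ag), `S_RES`, R7: the pull-back of a 1-form
-/

set_option autoImplicit false

namespace Pool.Agent.Helper46.D4

open Module Pool.Agent.Helper37.SD Pool.Agent.Helper20.TS Pool.Agent.Helper88.D4
  Pool.Agent.Helper20.D4

section

variable {K K' : Type} [Field K] [Algebra ℂ K] [Field K'] [Algebra ℂ K'] [Algebra K K']

/-- The derivation `D` of `K'`, restricted to `K` and composed with a functional. -/
theorem exists_comp (hT : ∀ z : ℂ, algebraMap ℂ K' z = algebraMap K K' (algebraMap ℂ K z))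
    (D : Derivation ℂ K' K') (φ : K' →ₗ[K] K) :
    ∃ E : Derivation ℂ K K, ∀ y : K, E y = φ (D (algebraMap K K' y)) := by
  have : IsScalarTower ℂ K K' := IsScalarTower.of_algebraMap_eq hT
  exact ⟨φ.compDer (D.compAlgebraMap K), fun y => rfl⟩

/-- A derivation of `K'` on `K`, in terms of a frame. -/
theorem der_res (hT : ∀ z : ℂ, algebraMap ℂ K' z = algebraMap K K' (algebraMap ℂ K z))
    {J : Bra K} (htr : Algebra.trdeg ℂ K = 4) (hJ : IsAlt J) {z : Fin 4 → K}
    (hz : brk J z ≠ 0) (D : Derivation ℂ K' K') (y : K) :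
    D (algebraMap K K' y) =
      ∑ k, algebraMap K K' (dfr J z k y) * D (algebraMap K K' (z k)) := by
  rw [← sub_eq_zero, ← Module.forall_dual_apply_eq_zero_iff K]
  intro φ
  obtain ⟨E, hE⟩ := exists_comp hT D φ
  have h1 : E y = (∑ i, E (z i) • dfr J z i) y := congrArg (fun d : Derivation ℂ K K => d y)
    (((Pool.Agent.Helper12.D4.s_AI K J htr hJ).2.1 z hz).2 E)
  rw [der_sum_apply] at h1
  rw [map_sub, ← hE, h1, map_sum, sub_eq_zero]
  refine Finset.sum_congr rfl fun k _ => ?_
  rw [Derivation.smul_apply, smul_eq_mul, hE, ← Algebra.smul_def, map_smul, smul_eq_mul, mul_comm]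

end

theorem s_HAT : S_HAT := by
  intro K K' _ _ _ _ _ hT J htr hJ η
  obtain ⟨x0, x1, x2, x3, hx⟩ := hJ.ne
  set z : Fin 4 → K := ![x0, x1, x2, x3] with hzdef
  have hz : brk J z ≠ 0 := hx
  have hAI := Pool.Agent.Helper12.D4.s_AI K J htr hJ
  have hexp : ∀ (w : Fin 4 → K), brk J w ≠ 0 → ∀ E : Derivation ℂ K K,
      η E = ∑ k, E (w k) * η (dfr J w k) := by
    intro w hw E
    conv_lhs => rw [(hAI.2.1 w hw).2 E]
    rw [map_sum]
    exact Finset.sum_congr rfl fun k _ => by rw [map_smul, smul_eq_mul]
  set η' : Helper88.D4.One K' :=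
    { toFun := fun D => ∑ k, algebraMap K K' (η (dfr J z k)) * D (algebraMap K K' (z k))
      map_add' := fun D E => by
        rw [← Finset.sum_add_distrib]
        exact Finset.sum_congr rfl fun k _ => by rw [Derivation.add_apply, mul_add]
      map_smul' := fun a D => by
        rw [RingHom.id_apply, smul_eq_mul, Finset.mul_sum]
        exact Finset.sum_congr rfl fun k _ => by
          rw [Derivation.smul_apply, smul_eq_mul]; ring } with hη'
  have hval : ∀ D : Derivation ℂ K' K',
      η' D = ∑ k, algebraMap K K' (η (dfr J z k)) * D (algebraMap K K' (z k)) := fun D => rfl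
  refine ⟨η', ?_, ?_, ?_⟩
  · intro w hw D
    rw [hval]
    have e1 : ∀ k, D (algebraMap K K' (z k)) =
        ∑ l, algebraMap K K' (dfr J w l (z k)) * D (algebraMap K K' (w l)) :=
      fun k => der_res hT htr hJ hw D (z k)
    have e2 : ∀ l, η (dfr J w l) = ∑ k, dfr J w l (z k) * η (dfr J z k) :=
      fun l => hexp z hz _
    simp_rw [e1, e2, Finset.mul_sum, map_sum, map_mul, Finset.sum_mul]
    rw [Finset.sum_comm]
    exact Finset.sum_congr rfl fun l _ => Finset.sum_congr rfl fun k _ => by ring
  · intro D D' hD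
    rw [hval, hexp z hz D, map_sum]
    exact Finset.sum_congr rfl fun k _ => by rw [hD, map_mul, mul_comm]
  · intro Z Z' hZ hinv D'
    have hdel : ∀ k l, dfr J z k (z l) = if k = l then 1 else 0 := (hAI.2.1 z hz).1
    have hZk : ∀ k, Z (η (dfr J z k)) = -∑ l, dfr J z k (Z (z l)) * η (dfr J z l) := by
      intro k
      rw [hinv, hexp z hz, ← Finset.sum_neg_distrib]
      refine Finset.sum_congr rfl fun l _ => ?_
      rw [Derivation.commutator_apply, hdel]
      have : Z (if k = l then (1 : K) else 0) = 0 := by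
        split_ifs
        · exact Z.map_one_eq_zero
        · exact map_zero Z
      rw [this, zero_sub, neg_mul]
    rw [hval, hval, map_sum]
    have e1 : ∀ k, Z' (algebraMap K K' (η (dfr J z k)) * D' (algebraMap K K' (z k))) =
        algebraMap K K' (η (dfr J z k)) * Z' (D' (algebraMap K K' (z k))) -
        ∑ l, algebraMap K K' (dfr J z k (Z (z l))) * algebraMap K K' (η (dfr J z l)) *
          D' (algebraMap K K' (z k)) := by
      intro k
      rw [Derivation.leibniz, smul_eq_mul, smul_eq_mul, hZ, hZk, map_neg, map_sum, mul_neg,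
        ← sub_eq_add_neg, Finset.mul_sum]
      congr 1
      exact Finset.sum_congr rfl fun l _ => by rw [map_mul]; ring
    have e2 : ∀ k, ⁅Z', D'⁆ (algebraMap K K' (z k)) = Z' (D' (algebraMap K K' (z k))) -
        ∑ l, algebraMap K K' (dfr J z l (Z (z k))) * D' (algebraMap K K' (z l)) := by
      intro k
      rw [Derivation.commutator_apply, hZ, der_res hT htr hJ hz D' (Z (z k))]
    simp_rw [e1, e2, mul_sub, Finset.sum_sub_distrib, Finset.mul_sum]
    congr 1
    rw [Finset.sum_comm]
    exact Finset.sum_congr rfl fun l _ => Finset.sum_congr rfl fun k _ => by ring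

end Pool.Agent.Helper46.D4
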