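import Pool.Agent.Helper20.D4.RDefs
import Pool.Agent.Helper51.D4.Quo

/-!
# Project D4 (MP_e1889a_ag), `S_RES`: the finite list of the prime divisors of a function, and
uniqueness of residues
-/

set_option autoImplicit false

namespace Pool.Agent.Helper46.D4

open Module Pool.Agent.Helper37.SD Pool.Agent.Helper20.TS Pool.Agent.Helper88.D4
  Pool.Agent.Helper51.D4

variable {K : Type} [Field K] [Algebra ℂ K]

theorem not_dist_iff {u w : RVal K} : ¬ Dist u w ↔ ∀ y, y ≠ 0 → u.val y = w.val y := by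
  unfold Helper88.D4.Dist
  push Not
  rfl

theorem dist_symm' {u w : RVal K} (h : Dist u w) : Dist w u := by
  obtain ⟨y, hy, hne⟩ := h
  exact ⟨y, hy, hne.symm⟩

theorem ge_of_not_dist {u w : RVal K} (h : ¬ Dist u w) {c : ℝ} {x : K} (hx : u.Ge c x) :
    w.Ge c x := by
  rcases hx with hx | hx
  · exact Or.inl hx
  · by_cases h0 : x = 0
    · exact Or.inl h0
    · exact Or.inr (by rwa [← not_dist_iff.mp h x h0])

/-- Prime divisors with the same centre are equal. -/
theorem not_dist_of_ctr {R : Subalgebra ℂ K} {u w : RVal K} (hu : PDiv R u) (hw : PDiv R w)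
    (h : ctr R u hu = ctr R w hw) : ¬ Dist u w := by
  rw [not_dist_iff]
  -- units of `u` are units of `w`
  have key : ∀ {u w : RVal K} (hu : PDiv R u) (hw : PDiv R w), ctr R u hu = ctr R w hw →
      ∀ y, y ≠ 0 → u.val y = 0 → w.val y = 0 := by
    intro u w hu hw h y hy huy
    have h1 : ∀ x ∈ R, x ≠ 0 → u.val x = 0 → w.val x = 0 := by
      intro x hx hx0 hux
      have h2 : (⟨x, hx⟩ : R) ∉ ctr R w hw := by
        rw [← h, mem_ctr]
        rintro (h3 | h3)
        · exact hx0 h3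
        · change 0 < u.val x at h3
          rw [hux] at h3
          exact lt_irrefl _ h3
      have h3 := hw.nonneg x hx hx0
      by_contra hne
      exact h2 (mem_ctr.mpr (Or.inr (lt_of_le_of_ne h3 (Ne.symm hne))))
    obtain ⟨s, hs, hs0, hus, hsy⟩ := hu.loc y hy huy.ge
    have e1 := h1 s hs hs0 hus
    have e2 := h1 (s * y) hsy (mul_ne_zero hs0 hy) (by rw [u.map_mul _ _ hs0 hy, hus, huy, add_zero])
    rw [w.map_mul _ _ hs0 hy, e1, zero_add] at e2
    exact e2
  have val_zpow : ∀ (u : RVal K) {x : K}, x ≠ 0 → ∀ n : ℤ, u.val (x ^ n) = n * u.val x := by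
    intro u x hx n
    obtain ⟨m, rfl | rfl⟩ := n.eq_nat_or_neg
    · rw [zpow_natCast, val_pow u hx]
      push_cast
      ring
    · rw [zpow_neg, zpow_natCast, val_inv u (pow_ne_zero _ hx), val_pow u hx]
      push_cast
      ring
  obtain ⟨p, -, hp0, hup⟩ := hu.unif
  obtain ⟨p', -, hp0', hwp⟩ := hw.unif
  have hmul : ∀ y, y ≠ 0 → w.val y = u.val y * w.val p := by
    intro y hy
    obtain ⟨n, hn⟩ := hu.int y hy
    have h1 := key hu hw h (y / p ^ n) (div_ne_zero hy (zpow_ne_zero _ hp0))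
      (by rw [val_div u hy (zpow_ne_zero _ hp0), val_zpow u hp0, hn, hup]; ring)
    rw [val_div w hy (zpow_ne_zero _ hp0), val_zpow w hp0] at h1
    rw [hn]
    linarith
  have hwp1 : w.val p = 1 := by
    obtain ⟨a, ha⟩ := hw.int p hp0
    obtain ⟨b, hb⟩ := hu.int p' hp0'
    have h1 := hmul p' hp0'
    rw [hwp, hb, ha] at h1
    have h2 : (1 : ℤ) = b * a := by exact_mod_cast h1
    have h3 : 0 ≤ w.val p := by
      obtain ⟨p2, hp2, hp20, hup2⟩ := hu.unif
      have h4 := hmul p2 hp20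
      rw [hup2, one_mul] at h4
      rw [← h4]
      exact hw.nonneg p2 hp2 hp20
    rw [ha] at h3 ⊢
    have h5 : 0 ≤ a := by exact_mod_cast h3
    rcases Int.isUnit_iff.mp (IsUnit.of_mul_eq_one b (by rw [mul_comm]; exact h2.symm)) with h6 | h6
    · exact_mod_cast h6
    · omega
  intro y hy
  rw [hmul y hy, hwp1, mul_one]

/-- The finite list of the prime divisors at which a function of `R` vanishes. -/
theorem exists_primes {R : Subalgebra ℂ K} (hfg : R.FG) {s : K} (hs : s ∈ R) (hs0 : s ≠ 0) :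
    ∃ (q : ℕ) (u : Fin q → RVal K), (∀ i, PDiv R (u i)) ∧ (∀ i j, i ≠ j → Dist (u i) (u j)) ∧
      (∀ i, 0 < (u i).val s) ∧ ∀ w, PDiv R w → 0 < w.val s → ∃ i, ¬ Dist w (u i) := by
  classical
  have hfin : (TC R s s).Finite := finite_TC hfg hs hs0
  have := hfin.fintype
  have hch : ∀ P : TC R s s, ∃ u : RVal K, ∃ hu : PDiv R u, P.1 = ctr R u hu ∧ 0 < u.val s := by
    rintro ⟨P, u, hu, hP, h1, -⟩
    exact ⟨u, hu, hP, h1⟩
  choose f hf hPf hfs using hch
  set e := Fintype.equivFin (TC R s s) with he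
  refine ⟨Fintype.card (TC R s s), fun i => f (e.symm i), fun i => hf _, ?_, fun i => hfs _, ?_⟩
  · intro i j hij
    by_contra hd
    apply hij
    apply e.symm.injective
    apply Subtype.ext
    rw [hPf, hPf]
    ext x
    rw [mem_ctr, mem_ctr]
    constructor
    · rintro (h | h)
      · exact Or.inl h
      · by_cases h0 : (x : K) = 0
        · exact Or.inl h0
        · exact Or.inr (by rwa [← not_dist_iff.mp hd _ h0])
    · rintro (h | h)
      · exact Or.inl h
      · by_cases h0 : (x : K) = 0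
        · exact Or.inl h0
        · exact Or.inr (by rwa [not_dist_iff.mp hd _ h0])
  · intro w hw hws
    refine ⟨e ⟨ctr R w hw, w, hw, rfl, hws, hws⟩, ?_⟩
    apply not_dist_of_ctr hw (hf _)
    rw [← hPf, Equiv.symm_apply_apply]

/-- Residues are unique. -/
theorem res_uniq (hUN : S_UN) {R : Subalgebra ℂ K} {ξ : Derivation ℂ K K} {J : Bra K} {a : ℝ}
    (hC : Cone4 R ξ J a) {u w : RVal K} (hu : PDiv R u) (hd : ¬ Dist u w) {s : K} (hs0 : s ≠ 0)
    (hus : u.val s = 1) {η : Helper88.D4.One K} {e e' : ℂ}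
    (h : ∀ D, Pres R D → u.Ge 0 (η D - e • (D s / s)))
    (h' : ∀ D, Pres R D → w.Ge 0 (η D - e' • (D s / s))) : e = e' := by
  obtain ⟨x, hx, y, hy, z, hz, hne, hv⟩ := hUN K R ξ J a hC u hu s hs0 hus
  have hP : Pres R (J x y z) := fun w hw => hC.reg w hw x hx y hy z hz
  have hd' : ¬ Dist w u := fun h => hd (dist_symm' h)
  have h1 := u.ge_sub (ge_of_not_dist hd' (h' _ hP)) (h _ hP)
  have e1 : η (J x y z) - e' • (J x y z s / s) - (η (J x y z) - e • (J x y z s / s)) =
      algebraMap ℂ K (e - e') * (J x y z s / s) := by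
    rw [Algebra.smul_def, Algebra.smul_def, map_sub]
    ring
  rw [e1] at h1
  by_contra hee
  have h2 : algebraMap ℂ K (e - e') ≠ 0 := by
    rw [map_ne_zero]
    exact sub_ne_zero.mpr hee
  have h3 : J x y z s / s ≠ 0 := div_ne_zero hne hs0
  have h4 := h1.resolve_left (mul_ne_zero h2 h3)
  rw [u.map_mul _ _ h2 h3, u.map_const _ (sub_ne_zero.mpr hee), val_div u hne hs0, hv, hus] at h4
  linarith

end Pool.Agent.Helper46.D4
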