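import Pool.Agent.Helper88.D4.Stmts2

/-!
# Project D4, block B~ (MP_e1889a_ag): dimension 4 without Q-factoriality, definitions
-/

set_option autoImplicit false

namespace Pool.Agent.Helper46.D4

open Module Filter Topology Polynomial Pool.Agent.Helper37.SD Pool.Agent.Helper20.TS
  Pool.Agent.Helper88.D4

variable {K : Type} [Field K] [Algebra ℂ K]

/-- The quotients `x / φ ^ l` such that `x` and `x * h ^ (j * l)` are in `R`. -/
def slopeAlg (R : Subalgebra ℂ K) (h φ : K) (j : ℕ) (hφ : φ ∈ Sj R h j) (h0 : φ ≠ 0) :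
    Subalgebra ℂ K where
  carrier := {x | ∃ (l : ℕ), ∃ y ∈ Sj R h (j * l), x = y / φ ^ l}
  mul_mem' := by
    rintro _ _ ⟨l, y, ⟨hy, hy'⟩, rfl⟩ ⟨n, z, ⟨hz, hz'⟩, rfl⟩
    refine ⟨l + n, y * z, ⟨R.mul_mem hy hz, ?_⟩, by rw [pow_add, div_mul_div_comm]⟩
    have := R.mul_mem hy' hz'
    rw [mul_add, pow_add]
    convert this using 1
    ring
  add_mem' := by
    rintro _ _ ⟨l, y, ⟨hy, hy'⟩, rfl⟩ ⟨n, z, ⟨hz, hz'⟩, rfl⟩
    refine ⟨l + n, y * φ ^ n + φ ^ l * z,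
      ⟨R.add_mem (R.mul_mem hy (R.pow_mem hφ.1 n)) (R.mul_mem (R.pow_mem hφ.1 l) hz), ?_⟩, ?_⟩
    · have h1 := R.mul_mem hy' (R.pow_mem hφ.2 n)
      have h2 := R.mul_mem (R.pow_mem hφ.2 l) hz'
      have := R.add_mem h1 h2
      convert this using 1
      rw [mul_pow, mul_pow, ← pow_mul, ← pow_mul, mul_add, pow_add]
      ring
    · rw [pow_add, div_add_div _ _ (pow_ne_zero l h0) (pow_ne_zero n h0)]
  algebraMap_mem' t := ⟨0, algebraMap ℂ K t, ⟨R.algebraMap_mem t, by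
    rw [mul_zero, pow_zero, mul_one]
    exact R.algebraMap_mem t⟩, by rw [pow_zero, div_one]⟩

/-- `φ` has the largest slope: `φ` and `φ h ^ j` are in `R`, and `i / deg y ≤ j / deg φ` whenever
`y` and `y h ^ i` are in `R`. -/
structure Opt (R : Subalgebra ℂ K) (ξ : Derivation ℂ K K) (h φ : K) (j : ℕ) (δ : ℝ) : Prop where
  mem : φ ∈ Sj R h j
  ne : φ ≠ 0
  jpos : 0 < j
  deg : ξ φ = (δ : ℂ) • φ
  dpos : 0 < δ
  opt : ∀ (y : K) (γ : ℝ) (i : ℕ), y ∈ Sj R h i → y ≠ 0 → ξ y = (γ : ℂ) • y → δ * i ≤ γ * j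
  fg : (slopeAlg R h φ j mem ne).FG

end Pool.Agent.Helper46.D4
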