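import Pool.Agent.Helper46.D4.K2a
import Pool.Agent.Helper88.D4.Stmts5
import Pool.Agent.Helper80.D4.B1a
import Pool.Agent.Helper48.D4.B0
import Pool.Agent.Helper11.D4.EX1
import Pool.Agent.Helper76.D4.Fin

/-!
# Project D4 (MP_e1889a_ag): invariant 2-forms with the torus in the kernel (S_K2)
-/

set_option autoImplicit false

namespace Pool.Agent.Helper46.D4.K2

open Module Pool.Agent.Helper88.D4 Pool.Agent.Helper12.D4 Pool.Agent.Helper37.SD
  Pool.Agent.Helper20.TS Pool.Agent.Helper84.D4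

variable {K : Type} [Field K] [Algebra ℂ K]

/-- The dual frame of a frame of weight vectors. -/
theorem lie_dfr {J : Bra K} (h : IsAlt J) (ht : Algebra.trdeg ℂ K = 4) {r : ℕ}
    {H : Fin r → Derivation ℂ K K} {f : Fin 4 → K} (hf : brk J f ≠ 0) {m : Fin 4 → Fin r → ℤ}
    (hm : ∀ j, IsW H (m j) (f j)) (i : Fin r) (j : Fin 4) :
    ⁅H i, dfr J f j⁆ = (-(m j i : K)) • dfr J f j := by
  rw [dfr_sum h ht hf ⁅H i, dfr J f j⁆, Finset.sum_eq_single j]
  · congr 1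
    rw [Derivation.commutator_apply, dfr_apply h hf, if_pos rfl, hm j i, Derivation.map_smul,
      dfr_apply h hf, if_pos rfl, Derivation.map_one_eq_zero, zero_sub, Algebra.smul_def,
      map_intCast, mul_one]
  · intro k _ hk
    have : ⁅H i, dfr J f j⁆ (f k) = 0 := by
      rw [Derivation.commutator_apply, dfr_apply h hf, if_neg (Ne.symm hk), hm k i,
        Derivation.map_smul, dfr_apply h hf, if_neg (Ne.symm hk), map_zero, smul_zero, sub_zero]
    rw [this, zero_smul]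
  · intro h1
    exact absurd (Finset.mem_univ j) h1

/-- The factor of an invariant 2-form is homogeneous. -/
theorem isW_phi {J : Bra K} (h : IsAlt J) (ht : Algebra.trdeg ℂ K = 4)
    {H : Fin 2 → Derivation ℂ K K} {w₀ : Fin 2 → ℤ} (hJ : ∀ i, HomBra (H i) (w₀ i : ℂ) J)
    {ω : Form K} (hω : ∀ i, HomForm (H i) 0 ω) {f : Fin 4 → K} (hf : brk J f ≠ 0)
    {m : Fin 4 → Fin 2 → ℤ} (hm : ∀ j, IsW H (m j) (f j))
    (hp : H 0 (f 2) * H 1 (f 3) - H 0 (f 3) * H 1 (f 2) ≠ 0) :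
    IsW H (-w₀) (brk J f * ω (dfr J f 0) (dfr J f 1) /
      (H 0 (f 2) * H 1 (f 3) - H 0 (f 3) * H 1 (f 2))) := by
  have h1 : IsW H (m 1 + m 2 + m 3 + m 0 - w₀) (brk J f) :=
    Helper80.D4.isW_J h hJ (hm 1) (hm 2) (hm 3) (hm 0)
  have h2 : IsW H (-(m 0) - m 1) (ω (dfr J f 0) (dfr J f 1)) := by
    intro i
    have e := hω i (dfr J f 0) (dfr J f 1)
    rw [lie_dfr h ht hf hm i 0, lie_dfr h ht hf hm i 1, map_smul, map_smul,
      LinearMap.smul_apply] at e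
    simp only [smul_eq_mul, Complex.ofReal_zero, zero_smul] at e
    simp only [Pi.sub_apply, Pi.neg_apply, Int.cast_sub, Int.cast_neg, Algebra.smul_def, map_sub,
      map_neg, map_intCast]
    linear_combination e
  have h3 : IsW H (m 2 + m 3) (H 0 (f 2) * H 1 (f 3) - H 0 (f 3) * H 1 (f 2)) := by
    have e0 := Helper80.D4.isW_mul (hm 2) (hm 3)
    have e1 : H 0 (f 2) * H 1 (f 3) - H 0 (f 3) * H 1 (f 2) =
        (((m 2 0 : ℂ) * (m 3 1 : ℂ) - (m 3 0 : ℂ) * (m 2 1 : ℂ))) • (f 2 * f 3) := by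
      rw [hm 2 0, hm 3 1, hm 3 0, hm 2 1]
      simp only [Algebra.smul_def, map_sub, map_mul, map_intCast]
      ring
    intro i
    rw [e1, Derivation.map_smul, e0 i, smul_comm]
  have h4 := Helper80.D4.isW_mul (Helper80.D4.isW_mul h1 h2) (Helper80.D4.isW_zpow hp h3 (-1))
  rw [zpow_neg_one, ← div_eq_mul_inv] at h4
  have h5 : m 1 + m 2 + m 3 + m 0 - w₀ + (-(m 0) - m 1) + (-1 : ℤ) • (m 2 + m 3) = -w₀ := by
    rw [neg_one_zsmul]
    abel
  rwa [h5] at h4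

/-- Derivations of a frame of `R` at a prime divisor. -/
theorem ge_dfr {R : Subalgebra ℂ K} {ξ : Derivation ℂ K K} {J : Bra K} {a : ℝ}
    (hC : Cone4 R ξ J a) {u : RVal K} (hu : PDiv R u) {f : Fin 4 → K} (hfR : ∀ i, f i ∈ R)
    (hf : brk J f ≠ 0) (hfv : u.val (brk J f) = 0) (i : Fin 4) {x : K} (hx : x ≠ 0)
    (hxv : 0 ≤ u.val x) : u.Ge 0 (dfr J f i x) := by
  have hpr := pres_dfr hC.reg hfR hf i
  obtain ⟨s, hs, hs0, hsv, hsx⟩ := hu.loc x hx hxv
  have e : dfr J f i x = s⁻¹ * (dfr J f i (s * x) - x * dfr J f i s) := by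
    rw [Derivation.leibniz, smul_eq_mul, smul_eq_mul, add_sub_cancel_right,
      inv_mul_cancel_left₀ hs0]
  rw [e]
  exact ge_mul0 (ge_inv hs0 hsv) (u.ge_sub (ge_apply hu hf hfv hpr hsx)
    (ge_mul0 (Or.inr hxv) (ge_apply hu hf hfv hpr hs)))

/-- The factor of a regular 2-form at a prime divisor with two independent units. -/
theorem ge_phi {R : Subalgebra ℂ K} {ξ : Derivation ℂ K K} {J : Bra K} {a : ℝ}
    (hC : Cone4 R ξ J a) {u : RVal K} (hu : PDiv R u) {ω : Form K} (hω : IsReg R ω)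
    {A B : Derivation ℂ K K} {φ : K}
    (hφ : ∀ D D' g, ω D D' * brk J g = φ * dt ![A, B, D, D'] g) {x y : K} (hx : x ≠ 0)
    (hy : y ≠ 0) (hxv : u.val x = 0) (hyv : u.val y = 0) (hP : A x * B y - A y * B x ≠ 0)
    (hPv : u.val (A x * B y - A y * B x) = 0) : u.Ge 0 φ := by
  obtain ⟨f, hfR, hf, hfv⟩ := ex_frame Helper76.D4.s_UN hC hu
  have hpr := fun i => pres_dfr hC.reg hfR hf i
  have hgw : ∀ i j, u.Ge 0 (ω (dfr J f i) (dfr J f j)) := fun i j =>
    ge_form hu hf hfv hω (hpr i) (hpr j)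
  have hgx : ∀ i, u.Ge 0 (dfr J f i x) := fun i => ge_dfr hC hu hfR hf hfv i hx hxv.ge
  have hgy : ∀ i, u.Ge 0 (dfr J f i y) := fun i => ge_dfr hC hu hfR hf hfv i hy hyv.ge
  have ex : ∀ (E : Derivation ℂ K K) (t : K), E t = E (f 0) * dfr J f 0 t +
      E (f 1) * dfr J f 1 t + E (f 2) * dfr J f 2 t + E (f 3) * dfr J f 3 t := by
    intro E t
    conv_lhs => rw [dfr_sum hC.alt hC.trdeg hf E]
    simp only [Fin.sum_univ_four, Derivation.add_apply, Derivation.smul_apply, smul_eq_mul]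
  have hd := dfr_apply hC.alt hf
  have key : ∀ i j, φ * dt ![A, B, dfr J f i, dfr J f j] f =
      ω (dfr J f i) (dfr J f j) * brk J f := fun i j => (hφ _ _ _).symm
  have k01 := key 0 1
  have k02 := key 0 2
  have k03 := key 0 3
  have k12 := key 1 2
  have k13 := key 1 3
  have k23 := key 2 3
  simp only [Helper87.D4.dt_eq, Matrix.cons_val_zero, Matrix.cons_val_one, Matrix.cons_val, hd]
    at k01 k02 k03 k12 k13 k23
  simp at k01 k02 k03 k12 k13 k23
  have e : φ * (A x * B y - A y * B x) = brk J f *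
      (ω (dfr J f 0) (dfr J f 1) * (dfr J f 2 x * dfr J f 3 y - dfr J f 3 x * dfr J f 2 y) -
      ω (dfr J f 0) (dfr J f 2) * (dfr J f 1 x * dfr J f 3 y - dfr J f 3 x * dfr J f 1 y) +
      ω (dfr J f 0) (dfr J f 3) * (dfr J f 1 x * dfr J f 2 y - dfr J f 2 x * dfr J f 1 y) +
      ω (dfr J f 1) (dfr J f 2) * (dfr J f 0 x * dfr J f 3 y - dfr J f 3 x * dfr J f 0 y) -
      ω (dfr J f 1) (dfr J f 3) * (dfr J f 0 x * dfr J f 2 y - dfr J f 2 x * dfr J f 0 y) +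
      ω (dfr J f 2) (dfr J f 3) * (dfr J f 0 x * dfr J f 1 y - dfr J f 1 x * dfr J f 0 y)) := by
    rw [ex A x, ex B y, ex A y, ex B x]
    linear_combination (dfr J f 2 x * dfr J f 3 y - dfr J f 3 x * dfr J f 2 y) * k01 -
      (dfr J f 1 x * dfr J f 3 y - dfr J f 3 x * dfr J f 1 y) * k02 +
      (dfr J f 1 x * dfr J f 2 y - dfr J f 2 x * dfr J f 1 y) * k03 +
      (dfr J f 0 x * dfr J f 3 y - dfr J f 3 x * dfr J f 0 y) * k12 -
      (dfr J f 0 x * dfr J f 2 y - dfr J f 2 x * dfr J f 0 y) * k13 +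
      (dfr J f 0 x * dfr J f 1 y - dfr J f 1 x * dfr J f 0 y) * k23
  have hq : ∀ i j, u.Ge 0 (dfr J f i x * dfr J f j y - dfr J f j x * dfr J f i y) := fun i j =>
    u.ge_sub (ge_mul0 (hgx i) (hgy j)) (ge_mul0 (hgx j) (hgy i))
  have hge : u.Ge 0 (φ * (A x * B y - A y * B x)) := by
    rw [e]
    refine ge_mul0 (Or.inr hfv.ge) ?_
    exact u.ge_add (u.ge_sub (u.ge_add (u.ge_add (u.ge_sub (ge_mul0 (hgw _ _) (hq _ _))
      (ge_mul0 (hgw _ _) (hq _ _))) (ge_mul0 (hgw _ _) (hq _ _)))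
      (ge_mul0 (hgw _ _) (hq _ _))) (ge_mul0 (hgw _ _) (hq _ _)))
      (ge_mul0 (hgw _ _) (hq _ _))
  have h1 := ge_mul0 hge (ge_inv hP hPv)
  rwa [mul_inv_cancel_right₀ hP] at h1

/-- **S_K2** -/
theorem s_K2_of (hGW : S_GW) (hPT : S_PTz) : S_K2 := by
  intro K _ _ R ξ J v a V r H c hC hM hT hr ω hω hH hker
  obtain ⟨hfin, hrk⟩ := Helper80.D4.finrank_der s_AI hC.trdeg hC.alt
  rcases hr.lt_or_eq with hlt | heq
  · exact ker_three hfin hrk hω.alt hlt (Helper48.D4.s_B0 K R ξ r H c hC.frac hT) hker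
  subst heq
  by_contra hne
  have hK : CharZero K := char0 K
  obtain ⟨w₀, hJw, hw0⟩ := Helper38.W0.s_W0 s_AI Helper11.D4.s_EX1 K R ξ J a 2 H c hC hT
  obtain ⟨f, m, hm, hf, hf2, hf3, hdet⟩ := ex_hom hC hT
  have hP : H 0 (f 2) * H 1 (f 3) - H 0 (f 3) * H 1 (f 2) ≠ 0 := by
    rw [hm 2 0, hm 3 1, hm 3 0, hm 2 1]
    simp only [Algebra.smul_def, map_intCast]
    have h1 : ((m 2 0 : K) * (m 3 1 : K) - (m 2 1 : K) * (m 3 0 : K)) ≠ 0 := by
      rw [sub_ne_zero]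
      exact_mod_cast hdet
    have h2 : (m 2 0 : K) * f 2 * ((m 3 1 : K) * f 3) - (m 3 0 : K) * f 3 * ((m 2 1 : K) * f 2) =
        ((m 2 0 : K) * (m 3 1 : K) - (m 2 1 : K) * (m 3 0 : K)) * (f 2 * f 3) := by ring
    rw [h2]
    exact mul_ne_zero h1 (mul_ne_zero hf2 hf3)
  have hφ := form_eq hC.alt hC.trdeg hω.alt (hker 0) (hker 1) hf hP
  have hφw := isW_phi hC.alt hC.trdeg hJw hH hf hm hP
  generalize brk J f * ω (dfr J f 0) (dfr J f 1) /
    (H 0 (f 2) * H 1 (f 3) - H 0 (f 3) * H 1 (f 2)) = φ at hφ hφw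
  have hφ0 : φ ≠ 0 := by
    intro h0
    apply hne
    refine LinearMap.ext fun D => LinearMap.ext fun D' => ?_
    have h1 := hφ D D' f
    rw [h0, zero_mul] at h1
    exact (mul_eq_zero.1 h1).resolve_right hf
  have hat : ∀ u, PDiv R u → 0 ≤ u.val φ ∨ ∃ ρ : Fin 2 → ℝ,
      (∀ m φ, φ ≠ 0 → IsW H m φ → u.val φ = ∑ i, ρ i * m i) ∧ ∑ i, ρ i * w₀ i = 1 := by
    intro u hu
    rcases hPT K R ξ J a H c hC hT w₀ hJw u hu with
      ⟨x, y, mx, my, hx, hy, hmx, hmy, hxv, hyv, hd⟩ | h1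
    · left
      have e : H 0 x * H 1 y - H 0 y * H 1 x =
          algebraMap ℂ K ((mx 0 : ℂ) * (my 1 : ℂ) - (mx 1 : ℂ) * (my 0 : ℂ)) * (x * y) := by
        rw [hmx 0, hmy 1, hmy 0, hmx 1]
        simp only [Algebra.smul_def, map_sub, map_mul, map_intCast]
        ring
      have hc : ((mx 0 : ℂ) * (my 1 : ℂ) - (mx 1 : ℂ) * (my 0 : ℂ)) ≠ 0 := by
        rw [sub_ne_zero]
        exact_mod_cast hd
      have hc' : algebraMap ℂ K ((mx 0 : ℂ) * (my 1 : ℂ) - (mx 1 : ℂ) * (my 0 : ℂ)) ≠ 0 :=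
        (map_ne_zero _).2 hc
      have h1 : H 0 x * H 1 y - H 0 y * H 1 x ≠ 0 := by
        rw [e]
        exact mul_ne_zero hc' (mul_ne_zero hx hy)
      have h2 : u.val (H 0 x * H 1 y - H 0 y * H 1 x) = 0 := by
        rw [e, u.map_mul _ _ hc' (mul_ne_zero hx hy), u.map_mul _ _ hx hy, u.map_const _ hc, hxv,
          hyv]
        norm_num
      exact (ge_phi hC hu hω hφ hx hy hxv hyv h1 h2).resolve_left hφ0
    · exact Or.inr h1
  obtain ⟨j, hj, hfinj, hlt⟩ := hGW K R ξ J v a V H c hC hM hT w₀ hJw 1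
  have hcst : ∀ y ∈ Wsp R H ((j : ℤ) • w₀), ∃ t : ℂ, y * φ ^ j = algebraMap ℂ K t := by
    intro y hy
    by_cases hy0 : y = 0
    · exact ⟨0, by rw [hy0, zero_mul, map_zero]⟩
    apply hC.const
    · by_contra hcon
      obtain ⟨u, hu, huv⟩ := Helper11.D4.s_EX1 K R hC.frac hC.fg hC.normal _ hcon
      rw [u.map_mul _ _ hy0 (pow_ne_zero _ hφ0), Helper80.D4.val_pow u hφ0] at huv
      have h1 := hu.nonneg y hy.1 hy0
      rcases hat u hu with h2 | ⟨ρ, hρ, hρw⟩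
      · have : 0 ≤ (j : ℝ) * u.val φ := mul_nonneg (Nat.cast_nonneg j) h2
        linarith
      · have h3 := hρ _ y hy0 hy.2
        have h4 := hρ _ φ hφ0 hφw
        have h5 : ∑ i, ρ i * ((((j : ℤ) • w₀) i : ℤ) : ℝ) = j * ∑ i, ρ i * w₀ i := by
          rw [Finset.mul_sum]
          refine Finset.sum_congr rfl fun i _ => ?_
          simp only [Pi.smul_apply, smul_eq_mul, Int.cast_mul, Int.cast_natCast]
          ring
        have h6 : ∑ i, ρ i * (((-w₀) i : ℤ) : ℝ) = -∑ i, ρ i * w₀ i := by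
          rw [← Finset.sum_neg_distrib]
          refine Finset.sum_congr rfl fun i _ => ?_
          simp only [Pi.neg_apply, Int.cast_neg]
          ring
        rw [h5, hρw] at h3
        rw [h6, hρw] at h4
        rw [h3, h4] at huv
        linarith
    · have h1 := Helper80.D4.isW_mul hy.2 (Helper80.D4.isW_zpow hφ0 hφw (j : ℤ))
      rw [zpow_natCast, smul_neg, add_neg_cancel] at h1
      rw [hT.xi, der_sum]
      refine Finset.sum_eq_zero fun i _ => ?_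
      rw [Derivation.smul_apply, h1 i]
      simp
  have hle : finrank ℂ (Wsp R H ((j : ℤ) • w₀)) ≤ 1 := by
    by_cases hall : ∀ y : Wsp R H ((j : ℤ) • w₀), y = 0
    · exact finrank_le_one 0 fun w => ⟨0, by rw [hall w, smul_zero]⟩
    · push Not at hall
      obtain ⟨y, hy⟩ := hall
      obtain ⟨s, hs⟩ := hcst y y.2
      have hy' : (y : K) ≠ 0 := fun h => hy (Subtype.ext h)
      have hpj : φ ^ j ≠ 0 := pow_ne_zero _ hφ0
      have hs0 : s ≠ 0 := by
        rintro rfl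
        rw [map_zero] at hs
        exact mul_ne_zero hy' hpj hs
      refine finrank_le_one y fun w => ?_
      obtain ⟨t, ht⟩ := hcst w w.2
      refine ⟨t / s, Subtype.ext ?_⟩
      have h1 : (((t / s) • y : Wsp R H ((j : ℤ) • w₀)) : K) = (t / s) • (y : K) := rfl
      rw [h1, Algebra.smul_def]
      apply mul_right_cancel₀ hpj
      rw [mul_assoc, hs, ← map_mul, div_mul_cancel₀ _ hs0, ht]
  have h1 : (finrank ℂ (Wsp R H ((j : ℤ) • w₀)) : ℝ) ≤ 1 := by exact_mod_cast hle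
  have h2 : (0 : ℝ) < j := by exact_mod_cast hj
  linarith

end Pool.Agent.Helper46.D4.K2
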