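import Pool.Agent.Helper84.D4.Pf
import Pool.Agent.Helper87.D4.Zf
import Pool.Agent.Helper80.D4.Pt
import Pool.Agent.Helper38.D4.W0

/-!
# Project D4 (MP_e1889a_ag): 2-forms with two derivations in the kernel
-/

set_option autoImplicit false

namespace Pool.Agent.Helper46.D4.K2

open Pool.Agent.Helper88.D4 Pool.Agent.Helper12.D4 Pool.Agent.Helper37.SD Pool.Agent.Helper20.TS
  Pool.Agent.Helper84.D4

variable {K : Type} [Field K] [Algebra ℂ K]

/-- A 2-form with `A`, `B` in its kernel is a multiple of `i_B i_A` of the volume form. -/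
theorem form_eq {J : Bra K} (h : IsAlt J) (ht : Algebra.trdeg ℂ K = 4) {ω : Form K}
    (ha : ∀ D, ω D D = 0) {A B : Derivation ℂ K K} (hA : ∀ D, ω A D = 0) (hB : ∀ D, ω B D = 0)
    {f : Fin 4 → K} (hf : brk J f ≠ 0) (hp : A (f 2) * B (f 3) - A (f 3) * B (f 2) ≠ 0)
    (D D' : Derivation ℂ K K) (g : Fin 4 → K) :
    ω D D' * brk J g = (brk J f * ω (dfr J f 0) (dfr J f 1) /
      (A (f 2) * B (f 3) - A (f 3) * B (f 2))) * dt ![A, B, D, D'] g := by
  have s01 := form_swap ha (dfr J f 1) (dfr J f 0)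
  have s02 := form_swap ha (dfr J f 2) (dfr J f 0)
  have s03 := form_swap ha (dfr J f 3) (dfr J f 0)
  have s12 := form_swap ha (dfr J f 2) (dfr J f 1)
  have s13 := form_swap ha (dfr J f 3) (dfr J f 1)
  have s23 := form_swap ha (dfr J f 3) (dfr J f 2)
  have rel : ∀ E : Derivation ℂ K K, (∀ D, ω E D = 0) → ∀ j,
      E (f 0) * ω (dfr J f 0) (dfr J f j) + E (f 1) * ω (dfr J f 1) (dfr J f j) +
        E (f 2) * ω (dfr J f 2) (dfr J f j) + E (f 3) * ω (dfr J f 3) (dfr J f j) = 0 := by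
    intro E hE j
    rw [← form_left ω (dfr_sum h ht hf E)]
    exact hE _
  have a0 := rel A hA 0
  have a1 := rel A hA 1
  have a2 := rel A hA 2
  have a3 := rel A hA 3
  have b0 := rel B hB 0
  have b1 := rel B hB 1
  have b2 := rel B hB 2
  have b3 := rel B hB 3
  simp only [ha, s01, s02, s03, s12, s13, s23] at a0 a1 a2 a3 b0 b1 b2 b3
  have hDD : ω D D' = D (f 0) * (D' (f 1) * ω (dfr J f 0) (dfr J f 1) +
      D' (f 2) * ω (dfr J f 0) (dfr J f 2) + D' (f 3) * ω (dfr J f 0) (dfr J f 3)) +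
      D (f 1) * (-(D' (f 0) * ω (dfr J f 0) (dfr J f 1)) +
      D' (f 2) * ω (dfr J f 1) (dfr J f 2) + D' (f 3) * ω (dfr J f 1) (dfr J f 3)) +
      D (f 2) * (-(D' (f 0) * ω (dfr J f 0) (dfr J f 2)) -
      D' (f 1) * ω (dfr J f 1) (dfr J f 2) + D' (f 3) * ω (dfr J f 2) (dfr J f 3)) +
      D (f 3) * (-(D' (f 0) * ω (dfr J f 0) (dfr J f 3)) -
      D' (f 1) * ω (dfr J f 1) (dfr J f 3) - D' (f 2) * ω (dfr J f 2) (dfr J f 3)) := by
    rw [form_left ω (dfr_sum h ht hf D)]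
    simp only [form_right ω (dfr_sum h ht hf D'), ha, s01, s02, s03, s12, s13, s23]
    ring
  have hdt := s_JD K J ht h ![A, B, D, D'] f g
  have hf' : dt ![A, B, D, D'] f = A (f 0) * (B (f 1) * (D (f 2) * D' (f 3) - D (f 3) * D' (f 2))
        - B (f 2) * (D (f 1) * D' (f 3) - D (f 3) * D' (f 1))
        + B (f 3) * (D (f 1) * D' (f 2) - D (f 2) * D' (f 1)))
      - A (f 1) * (B (f 0) * (D (f 2) * D' (f 3) - D (f 3) * D' (f 2))
        - B (f 2) * (D (f 0) * D' (f 3) - D (f 3) * D' (f 0))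
        + B (f 3) * (D (f 0) * D' (f 2) - D (f 2) * D' (f 0)))
      + A (f 2) * (B (f 0) * (D (f 1) * D' (f 3) - D (f 3) * D' (f 1))
        - B (f 1) * (D (f 0) * D' (f 3) - D (f 3) * D' (f 0))
        + B (f 3) * (D (f 0) * D' (f 1) - D (f 1) * D' (f 0)))
      - A (f 3) * (B (f 0) * (D (f 1) * D' (f 2) - D (f 2) * D' (f 1))
        - B (f 1) * (D (f 0) * D' (f 2) - D (f 2) * D' (f 0))
        + B (f 2) * (D (f 0) * D' (f 1) - D (f 1) * D' (f 0))) :=
    Helper87.D4.dt_eq ![A, B, D, D'] f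
  generalize A (f 0) = x0 at *
  generalize A (f 1) = x1 at *
  generalize A (f 2) = x2 at *
  generalize A (f 3) = x3 at *
  generalize B (f 0) = y0 at *
  generalize B (f 1) = y1 at *
  generalize B (f 2) = y2 at *
  generalize B (f 3) = y3 at *
  generalize ω (dfr J f 0) (dfr J f 1) = w01 at *
  generalize ω (dfr J f 0) (dfr J f 2) = w02 at *
  generalize ω (dfr J f 0) (dfr J f 3) = w03 at *
  generalize ω (dfr J f 1) (dfr J f 2) = w12 at *
  generalize ω (dfr J f 1) (dfr J f 3) = w13 at *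
  generalize ω (dfr J f 2) (dfr J f 3) = w23 at *
  have k02 : (x2 * y3 - x3 * y2) * w02 = -(x1 * y3 - x3 * y1) * w01 := by
    linear_combination (-y3) * a0 + x3 * b0
  have k03 : (x2 * y3 - x3 * y2) * w03 = (x1 * y2 - x2 * y1) * w01 := by
    linear_combination y2 * a0 - x2 * b0
  have k12 : (x2 * y3 - x3 * y2) * w12 = (x0 * y3 - x3 * y0) * w01 := by
    linear_combination (-y3) * a1 + x3 * b1
  have k13 : (x2 * y3 - x3 * y2) * w13 = -(x0 * y2 - x2 * y0) * w01 := by
    linear_combination y2 * a1 - x2 * b1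
  have h2 : (2 : K) ≠ 0 := by
    have : CharZero K := char0 K
    exact two_ne_zero
  have k23 : (x2 * y3 - x3 * y2) * w23 = (x0 * y1 - x1 * y0) * w01 := by
    apply mul_left_cancel₀ h2
    linear_combination -(y0 * a0 - x0 * b0) - (y1 * a1 - x1 * b1) + (y2 * a2 - x2 * b2) +
      (y3 * a3 - x3 * b3)
  have key : ω D D' * (x2 * y3 - x3 * y2) = w01 * dt ![A, B, D, D'] f := by
    rw [hDD, hf']
    linear_combination (D (f 0) * D' (f 2) - D (f 2) * D' (f 0)) * k02 +
      (D (f 0) * D' (f 3) - D (f 3) * D' (f 0)) * k03 +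
      (D (f 1) * D' (f 2) - D (f 2) * D' (f 1)) * k12 +
      (D (f 1) * D' (f 3) - D (f 3) * D' (f 1)) * k13 +
      (D (f 2) * D' (f 3) - D (f 3) * D' (f 2)) * k23
  rw [div_mul_eq_mul_div, eq_div_iff hp]
  linear_combination brk J g * key - w01 * hdt

/-- Three independent derivations in the kernel. -/
theorem ker_three (hfin : Module.Finite K (Derivation ℂ K K))
    (hrk : Module.finrank K (Derivation ℂ K K) = 4) {ω : Form K} (ha : ∀ D, ω D D = 0)
    {r : ℕ} (hr : 3 ≤ r) {H : Fin r → Derivation ℂ K K} (hli : LinearIndependent K H)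
    (hH : ∀ i D, ω (H i) D = 0) : ω = 0 := by
  by_contra hne
  obtain ⟨D, hD⟩ : ∃ D, ω D ≠ 0 := by
    by_contra hcon
    push Not at hcon
    exact hne (LinearMap.ext hcon)
  set W : Submodule K (Derivation ℂ K K) := LinearMap.ker ω with hW
  have h3 : 3 ≤ Module.finrank K W := by
    have h1 : Submodule.span K (Set.range H) ≤ W := by
      rw [Submodule.span_le]
      rintro _ ⟨i, rfl⟩
      exact LinearMap.mem_ker.2 (LinearMap.ext (hH i))
    have h2 := Submodule.finrank_mono h1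
    rw [finrank_span_eq_card hli, Fintype.card_fin] at h2
    exact hr.trans h2
  have hDW : D ∉ W := fun h => hD (LinearMap.mem_ker.1 h)
  have hlt : W < W ⊔ Submodule.span K {D} := by
    refine lt_of_le_of_ne le_sup_left fun h => hDW ?_
    rw [h]
    exact Submodule.mem_sup_right (Submodule.mem_span_singleton_self D)
  have h4 := Submodule.finrank_lt_finrank_of_lt hlt
  have htop : W ⊔ Submodule.span K {D} = ⊤ := by
    apply Submodule.eq_top_of_finrank_eq
    have h5 := Submodule.finrank_le (W ⊔ Submodule.span K {D})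
    omega
  apply hD
  refine LinearMap.ext fun E => ?_
  have hE : E ∈ W ⊔ Submodule.span K {D} := by
    rw [htop]
    exact Submodule.mem_top
  obtain ⟨w, hw, e, he, rfl⟩ := Submodule.mem_sup.1 hE
  obtain ⟨c, rfl⟩ := Submodule.mem_span_singleton.1 he
  have hw0 : ω w D = 0 := by
    rw [LinearMap.mem_ker.1 hw]
    rfl
  rw [map_add, map_smul, ha, smul_zero, add_zero, form_swap ha, hw0, neg_zero]
  rfl

/-- A frame of weight vectors which contains two functions of independent weights. -/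
theorem ex_hom {R : Subalgebra ℂ K} {ξ : Derivation ℂ K K} {J : Bra K} {a : ℝ}
    {H : Fin 2 → Derivation ℂ K K} {c : Fin 2 → ℝ} (hC : Cone4 R ξ J a) (hT : Tor R ξ H c) :
    ∃ (f : Fin 4 → K) (m : Fin 4 → Fin 2 → ℤ), (∀ i, IsW H (m i) (f i)) ∧ brk J f ≠ 0 ∧
      f 2 ≠ 0 ∧ f 3 ≠ 0 ∧ m 2 0 * m 3 1 ≠ m 2 1 * m 3 0 := by
  obtain ⟨x, y, mx, my, hxR, hyR, hx0, hy0, hx, hy, hdet⟩ :=
    Helper80.D4.exists_indep hC.frac hT
  have hK : CharZero K := char0 K
  have hP : H 0 x * H 1 y - H 1 x * H 0 y ≠ 0 := by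
    rw [hx 0, hx 1, hy 0, hy 1]
    simp only [Algebra.smul_def, map_intCast]
    have h1 : ((mx 0 : K) * (my 1 : K) - (mx 1 : K) * (my 0 : K)) ≠ 0 := by
      rw [sub_ne_zero]
      exact_mod_cast hdet
    have h2 : (mx 0 : K) * x * ((my 1 : K) * y) - (mx 1 : K) * x * ((my 0 : K) * y) =
        ((mx 0 : K) * (my 1 : K) - (mx 1 : K) * (my 0 : K)) * (x * y) := by ring
    rw [h2]
    exact mul_ne_zero h1 (mul_ne_zero hx0 hy0)
  obtain ⟨p, q, hpq⟩ := Helper87.D4.exists_fr s_JD s_AI hC.trdeg hC.alt (H 0) (H 1) x y (by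
    intro h0
    apply hP
    linear_combination h0)
  rw [brk_apply] at hpq
  have hne : ∀ (D : Derivation ℂ K K) (x : K), D x ≠ 0 → D ≠ 0 := by
    intro D x hx h
    exact hx (by rw [h]; rfl)
  obtain ⟨p', ⟨hpR, mp, hmp⟩, hp'⟩ := Helper38.W0.ex_wv hC.frac hT.span _ (hne _ _ hpq)
  have h1 : J p' x y q ≠ 0 := by
    rw [hC.alt.s1]
    exact neg_ne_zero.2 hp'
  obtain ⟨q', ⟨hqR, mq, hmq⟩, hq'⟩ := Helper38.W0.ex_wv hC.frac hT.span _ (hne _ _ h1)
  refine ⟨![q', p', x, y], ![mq, mp, mx, my], ?_, ?_, hx0, hy0, hdet⟩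
  · intro i
    fin_cases i
    · exact hmq
    · exact hmp
    · exact hx
    · exact hy
  · rwa [brk_apply]

end Pool.Agent.Helper46.D4.K2
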