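import Pool.Agent.Helper46.D4.K2
import Pool.Agent.Helper88.D4.Stmts6

/-!
# Project D4 (MP_e1889a_ag): the kernel of a degenerate 2-form (S_KER)
-/

set_option autoImplicit false

namespace Pool.Agent.Helper46.D4.Ker

open Module Pool.Agent.Helper88.D4 Pool.Agent.Helper12.D4 Pool.Agent.Helper37.SD
  Pool.Agent.Helper20.TS Pool.Agent.Helper84.D4 Pool.Agent.Helper46.D4.K2

variable {K : Type} [Field K] [Algebra ℂ K]

/-- `x` is a homogeneous element of `R`. -/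
def HE (R : Subalgebra ℂ K) (ξ : Derivation ℂ K K) (x : K) : Prop :=
  x ∈ R ∧ ∃ c : ℝ, ξ x = (c : ℂ) • x

theorem ex_he {R : Subalgebra ℂ K} {ξ : Derivation ℂ K K} (hR : IsCone R ξ)
    (D : Derivation ℂ K K) (hD : D ≠ 0) : ∃ x, HE R ξ x ∧ D x ≠ 0 := by
  by_contra hcon
  push Not at hcon
  apply hD
  have h1 : ∀ x ∈ R, D x = 0 := by
    intro x hx
    have h2 := hR.span x hx
    clear hx
    unfold RH Hsp at h2
    induction h2 using Submodule.span_induction with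
    | mem y hy =>
      obtain ⟨hyR, c, -, hc⟩ := hy
      exact hcon y ⟨hyR, c, hc⟩
    | zero => exact map_zero D
    | add y z _ _ hy hz => rw [map_add, hy, hz, add_zero]
    | smul c y _ hy => rw [Derivation.map_smul, hy, smul_zero]
  ext x
  obtain ⟨a, ha, b, hb, hb0, hx⟩ := hR.frac x
  have h3 : a = b * x := by rw [hx]; field_simp
  have h4 : D a = b * D x + x * D b := by rw [h3, Derivation.leibniz]; simp
  rw [h1 a ha, h1 b hb, mul_zero, add_zero] at h4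
  exact (mul_eq_zero.mp h4.symm).resolve_left hb0

/-- There are homogeneous elements with nonzero bracket. -/
theorem ex_frame_he {R : Subalgebra ℂ K} {ξ : Derivation ℂ K K} (hR : IsCone R ξ)
    {J : Bra K} (hJ : IsAlt J) : ∃ f : Fin 4 → K, (∀ i, HE R ξ (f i)) ∧ brk J f ≠ 0 := by
  have hne : ∀ (D : Derivation ℂ K K) (x : K), D x ≠ 0 → D ≠ 0 := by
    intro D x hx h
    exact hx (by rw [h]; rfl)
  obtain ⟨x, y, z, w, h0⟩ := hJ.ne
  obtain ⟨x', hx', h1⟩ := ex_he hR _ (hne _ _ h0)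
  have h2 : J x' z w y ≠ 0 := by rw [hJ.s1]; exact neg_ne_zero.mpr h1
  obtain ⟨y', hy', h3⟩ := ex_he hR _ (hne _ _ h2)
  have h4 : J x' y' w z ≠ 0 := by
    have e1 : J x' z w y' = - J y' z w x' := hJ.s1 _ _ _ _
    have e2 : J z y' w x' = - J y' z w x' := by rw [hJ.s2]; rfl
    have e3 : J x' y' w z = - J z y' w x' := hJ.s1 _ _ _ _
    rw [e3, e2, neg_neg]
    intro h
    exact h3 (by rw [e1, h, neg_zero])
  obtain ⟨z', hz', h5⟩ := ex_he hR _ (hne _ _ h4)
  have h6 : J x' y' z' w ≠ 0 := by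
    have e1 : J x' y' w z' = - J z' y' w x' := hJ.s1 _ _ _ _
    have e2 : J z' w y' x' = - J z' y' w x' := by rw [hJ.s3]; rfl
    have e3 : J w z' y' x' = - J z' w y' x' := by rw [hJ.s2]; rfl
    have e4 : J w y' z' x' = - J w z' y' x' := by rw [hJ.s3]; rfl
    have e5 : J x' y' z' w = - J w y' z' x' := hJ.s1 _ _ _ _
    rw [e5, e4, e3, e2, neg_neg, neg_neg]
    intro h
    exact h5 (by rw [e1, h, neg_zero])
  obtain ⟨w', hw', h7⟩ := ex_he hR _ (hne _ _ h6)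
  refine ⟨![w', x', y', z'], ?_, by rwa [brk_apply]⟩
  intro i
  fin_cases i
  · exact hw'
  · exact hx'
  · exact hy'
  · exact hz'

theorem inj_four : ∀ i j : Fin 4, i ≠ j → ∃ k l : Fin 4, Function.Injective ![i, j, k, l] := by
  decide

/-- the dual frame of a permuted frame -/
theorem dfr_comp {J : Bra K} (h : IsAlt J) (ht : Algebra.trdeg ℂ K = 4) {f : Fin 4 → K}
    (hf : brk J f ≠ 0) {σ : Fin 4 → Fin 4} (hσ : Function.Injective σ) :
    brk J (f ∘ σ) ≠ 0 ∧ ∀ i, dfr J (f ∘ σ) i = dfr J f (σ i) := by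
  have h1 : brk J (f ∘ σ) ≠ 0 :=
    ((s_AI K J ht h).1 (f ∘ σ)).1 ((((s_AI K J ht h).1 f).2 hf).comp σ hσ)
  refine ⟨h1, fun i => ?_⟩
  rw [dfr_sum h ht h1 (dfr J f (σ i)), Finset.sum_eq_single i]
  · rw [Function.comp_apply, dfr_apply h hf, if_pos rfl, one_smul]
  · intro j _ hj
    rw [Function.comp_apply, dfr_apply h hf, if_neg (fun e => hj (hσ e).symm), zero_smul]
  · intro h2
    exact absurd (Finset.mem_univ i) h2

/-- a homogeneous frame with `ω (e 0) (e 1) ≠ 0` -/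
theorem ex_frame_ne {R : Subalgebra ℂ K} {ξ : Derivation ℂ K K} (hR : IsCone R ξ)
    {J : Bra K} (hJ : IsAlt J) (ht : Algebra.trdeg ℂ K = 4) {ω : Form K} (ha : ∀ D, ω D D = 0)
    (hω : ω ≠ 0) : ∃ (f : Fin 4 → K) (w : Fin 4 → ℝ), (∀ i, ξ (f i) = (w i : ℂ) • f i) ∧
      brk J f ≠ 0 ∧ ω (dfr J f 0) (dfr J f 1) ≠ 0 := by
  obtain ⟨f, hf, hne⟩ := ex_frame_he hR hJ
  obtain ⟨i, j, hij⟩ : ∃ i j, ω (dfr J f i) (dfr J f j) ≠ 0 := by
    by_contra hcon
    push Not at hcon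
    apply hω
    refine LinearMap.ext fun D => LinearMap.ext fun D' => ?_
    rw [form_left ω (dfr_sum hJ ht hne D)]
    simp only [form_right ω (dfr_sum hJ ht hne D'), hcon, mul_zero, add_zero,
      LinearMap.zero_apply]
  have hne' : i ≠ j := fun e => hij (by rw [e]; exact ha _)
  obtain ⟨k, l, hσ⟩ := inj_four i j hne'
  obtain ⟨h1, h2⟩ := dfr_comp hJ ht hne hσ
  choose w hw using fun i => (hf i).2
  refine ⟨f ∘ ![i, j, k, l], w ∘ ![i, j, k, l], fun i => hw _, h1, ?_⟩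
  rw [h2, h2]
  exact hij

theorem eig_inv {ξ : Derivation ℂ K K} {c : ℝ} {x : K} (hx0 : x ≠ 0)
    (hx : ξ x = (c : ℂ) • x) : ξ x⁻¹ = ((-c : ℝ) : ℂ) • x⁻¹ := by
  have h1 : ξ (x * x⁻¹) = 0 := by rw [mul_inv_cancel₀ hx0, Derivation.map_one_eq_zero]
  rw [Derivation.leibniz, hx] at h1
  simp only [Algebra.smul_def, Complex.ofReal_neg, map_neg] at h1 ⊢
  apply mul_left_cancel₀ hx0
  linear_combination h1

theorem eig_div {ξ : Derivation ℂ K K} {b c : ℝ} {x y : K} (hy0 : y ≠ 0)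
    (hx : ξ x = (b : ℂ) • x) (hy : ξ y = (c : ℂ) • y) : ξ (x / y) = ((b - c : ℝ) : ℂ) • (x / y) := by
  rw [div_eq_mul_inv, sub_eq_add_neg]
  exact eig_mul hx (eig_inv hy0 hy)

/-- derivations of weight `0` -/
theorem lie_zero {J : Bra K} (h : IsAlt J) (ht : Algebra.trdeg ℂ K = 4) {ξ : Derivation ℂ K K}
    {f : Fin 4 → K} (hf : brk J f ≠ 0) {w : Fin 4 → ℝ} (hw : ∀ i, ξ (f i) = (w i : ℂ) • f i)
    {D : Derivation ℂ K K} (hD : ∀ i, ξ (D (f i)) = (w i : ℂ) • D (f i)) : ⁅ξ, D⁆ = 0 := by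
  rw [dfr_sum h ht hf ⁅ξ, D⁆]
  refine Finset.sum_eq_zero fun i _ => ?_
  rw [Derivation.commutator_apply, hw, Derivation.map_smul, hD, sub_self, zero_smul]

theorem lie_dfr {J : Bra K} (h : IsAlt J) (ht : Algebra.trdeg ℂ K = 4) {ξ : Derivation ℂ K K}
    {f : Fin 4 → K} (hf : brk J f ≠ 0) {w : Fin 4 → ℝ} (hw : ∀ i, ξ (f i) = (w i : ℂ) • f i)
    (j : Fin 4) : ⁅ξ, dfr J f j⁆ = (algebraMap ℂ K (-(w j : ℂ))) • dfr J f j := by
  rw [dfr_sum h ht hf ⁅ξ, dfr J f j⁆, Finset.sum_eq_single j]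
  · congr 1
    rw [Derivation.commutator_apply, dfr_apply h hf, if_pos rfl, hw j, Derivation.map_smul,
      dfr_apply h hf, if_pos rfl, Derivation.map_one_eq_zero, zero_sub, Algebra.smul_def,
      mul_one, map_neg]
  · intro k _ hk
    have : ⁅ξ, dfr J f j⁆ (f k) = 0 := by
      rw [Derivation.commutator_apply, dfr_apply h hf, if_neg (Ne.symm hk), hw k,
        Derivation.map_smul, dfr_apply h hf, if_neg (Ne.symm hk), map_zero, smul_zero, sub_zero]
    rw [this, zero_smul]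
  · intro h1
    exact absurd (Finset.mem_univ j) h1

/-- the weight of the values of a homogeneous form -/
theorem eig_form {J : Bra K} (h : IsAlt J) (ht : Algebra.trdeg ℂ K = 4) {ξ : Derivation ℂ K K}
    {f : Fin 4 → K} (hf : brk J f ≠ 0) {w : Fin 4 → ℝ} (hw : ∀ i, ξ (f i) = (w i : ℂ) • f i)
    {ω : Form K} {k : ℝ} (hω : HomForm ξ k ω) (i j : Fin 4) :
    ξ (ω (dfr J f i) (dfr J f j)) = ((k - w i - w j : ℝ) : ℂ) • ω (dfr J f i) (dfr J f j) := by
  have e := hω (dfr J f i) (dfr J f j)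
  rw [lie_dfr h ht hf hw i, lie_dfr h ht hf hw j, map_smul, map_smul, LinearMap.smul_apply] at e
  simp only [smul_eq_mul, Algebra.smul_def, Complex.ofReal_sub, map_sub, map_neg] at e ⊢
  linear_combination e

/-- the weight of the bracket -/
theorem eig_brk {J : Bra K} (h : IsAlt J) {ξ : Derivation ℂ K K} {a : ℝ}
    (hJ : HomBra ξ a J) {f : Fin 4 → K} {w : Fin 4 → ℝ}
    (hw : ∀ i, ξ (f i) = (w i : ℂ) • f i) :
    ξ (brk J f) = ((w 0 + w 1 + w 2 + w 3 - a : ℝ) : ℂ) • brk J f := by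
  have e := hJ (f 0) (f 1) (f 2) (f 3)
  unfold brk
  rw [e, hw 0, hw 1, hw 2, hw 3, Derivation.map_smul, smul1 h, smul2 h, smul3 h]
  simp only [Derivation.smul_apply, Algebra.smul_def, Complex.ofReal_sub, Complex.ofReal_add,
    map_sub, map_add]
  ring

/-- The kernel frame. -/
structure KF (ξ : Derivation ℂ K K) (ω : Form K) (f : Fin 4 → K) (D : Fin 2 → Derivation ℂ K K) :
    Prop where
  ker : ∀ i E, ω (D i) E = 0
  com : ∀ i, ⁅ξ, D i⁆ = 0
  a2 : D 0 (f 2) = f 2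
  a3 : D 0 (f 3) = 0
  b2 : D 1 (f 2) = 0
  b3 : D 1 (f 3) = f 3

theorem ex_KF {J : Bra K} (h : IsAlt J) (ht : Algebra.trdeg ℂ K = 4) {ξ : Derivation ℂ K K}
    {f : Fin 4 → K} (hf : brk J f ≠ 0) {w : Fin 4 → ℝ} (hw : ∀ i, ξ (f i) = (w i : ℂ) • f i)
    {ω : Form K} {k : ℝ} (ha : ∀ D, ω D D = 0) (hω : HomForm ξ k ω)
    (h01 : ω (dfr J f 0) (dfr J f 1) ≠ 0) (hpf : pf ω (dfr J f) = 0) :
    ∃ D : Fin 2 → Derivation ℂ K K, KF ξ ω f D := by
  have hd := dfr_apply h hf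
  have hW := eig_form h ht hf hw hω
  have s01 := form_swap ha (dfr J f 1) (dfr J f 0)
  have s02 := form_swap ha (dfr J f 2) (dfr J f 0)
  have s03 := form_swap ha (dfr J f 3) (dfr J f 0)
  have s12 := form_swap ha (dfr J f 2) (dfr J f 1)
  have s13 := form_swap ha (dfr J f 3) (dfr J f 1)
  have s23 := form_swap ha (dfr J f 3) (dfr J f 2)
  unfold pf at hpf
  have hW01 := hW 0 1
  have hW02 := hW 0 2
  have hW03 := hW 0 3
  have hW12 := hW 1 2
  have hW13 := hW 1 3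
  have key : ∀ l : Fin 4, l ≠ 0 → l ≠ 1 →
      ξ (f l * (ω (dfr J f 1) (dfr J f l) / ω (dfr J f 0) (dfr J f 1))) = (w 0 : ℂ) •
        (f l * (ω (dfr J f 1) (dfr J f l) / ω (dfr J f 0) (dfr J f 1))) ∧
      ξ (f l * (ω (dfr J f 0) (dfr J f l) / ω (dfr J f 0) (dfr J f 1))) = (w 1 : ℂ) •
        (f l * (ω (dfr J f 0) (dfr J f l) / ω (dfr J f 0) (dfr J f 1))) := by
    intro l _ _
    have e1 := eig_mul (hw l) (eig_div h01 (hW 1 l) hW01)
    have e2 := eig_mul (hw l) (eig_div h01 (hW 0 l) hW01)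
    constructor
    · rw [e1]
      congr 2
      ring
    · rw [e2]
      congr 2
      ring
  let A : Fin 4 → Derivation ℂ K K := fun l =>
    f l • (dfr J f l + (ω (dfr J f 1) (dfr J f l) / ω (dfr J f 0) (dfr J f 1)) • dfr J f 0 -
      (ω (dfr J f 0) (dfr J f l) / ω (dfr J f 0) (dfr J f 1)) • dfr J f 1)
  have hA : ∀ l x, A l x = f l * (dfr J f l x +
      (ω (dfr J f 1) (dfr J f l) / ω (dfr J f 0) (dfr J f 1)) * dfr J f 0 x -
      (ω (dfr J f 0) (dfr J f l) / ω (dfr J f 0) (dfr J f 1)) * dfr J f 1 x) := fun l x => by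
    simp only [A, Derivation.smul_apply, Derivation.sub_apply, Derivation.add_apply, smul_eq_mul]
  have hAω : ∀ l E, ω (A l) E = f l * (ω (dfr J f l) E +
      (ω (dfr J f 1) (dfr J f l) / ω (dfr J f 0) (dfr J f 1)) * ω (dfr J f 0) E -
      (ω (dfr J f 0) (dfr J f l) / ω (dfr J f 0) (dfr J f 1)) * ω (dfr J f 1) E) := fun l E => by
    simp only [A, map_smul, map_sub, map_add, LinearMap.smul_apply, LinearMap.sub_apply,
      LinearMap.add_apply, smul_eq_mul]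
  have h0 : ∀ l : Fin 4, l ≠ 0 → l ≠ 1 →
      A l (f 0) = f l * (ω (dfr J f 1) (dfr J f l) / ω (dfr J f 0) (dfr J f 1)) ∧
      A l (f 1) = -(f l * (ω (dfr J f 0) (dfr J f l) / ω (dfr J f 0) (dfr J f 1))) := by
    intro l hl0 hl1
    constructor
    · simp only [hA, hd, if_neg hl0]
      simp
    · simp only [hA, hd, if_neg hl1]
      simp
  have g22 : A 2 (f 2) = f 2 := by
    simp only [hA, hd]
    simp
  have g23 : A 2 (f 3) = 0 := by
    simp only [hA, hd]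
    simp
  have g32 : A 3 (f 2) = 0 := by
    simp only [hA, hd]
    simp
  have g33 : A 3 (f 3) = f 3 := by
    simp only [hA, hd]
    simp
  have hk2 : ∀ E, ω (A 2) E = 0 := by
    intro E
    rw [form_right ω (dfr_sum h ht hf E)]
    simp only [hAω, ha, s01, s02, s12]
    field_simp
    linear_combination (E (f 3)) * f 2 * hpf
  have hk3 : ∀ E, ω (A 3) E = 0 := by
    intro E
    rw [form_right ω (dfr_sum h ht hf E)]
    simp only [hAω, ha, s01, s03, s13, s23]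
    field_simp
    linear_combination (-(E (f 2))) * f 3 * hpf
  have hc2 : ⁅ξ, A 2⁆ = 0 := by
    refine lie_zero h ht hf hw fun j => ?_
    obtain ⟨k1, k2⟩ := key 2 (by decide) (by decide)
    obtain ⟨l1, l2⟩ := h0 2 (by decide) (by decide)
    fin_cases j
    · change ξ (A 2 (f 0)) = (w 0 : ℂ) • A 2 (f 0)
      rw [l1, k1]
    · change ξ (A 2 (f 1)) = (w 1 : ℂ) • A 2 (f 1)
      rw [l2, map_neg, k2, smul_neg]
    · change ξ (A 2 (f 2)) = (w 2 : ℂ) • A 2 (f 2)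
      rw [g22, hw]
    · change ξ (A 2 (f 3)) = (w 3 : ℂ) • A 2 (f 3)
      rw [g23, map_zero, smul_zero]
  have hc3 : ⁅ξ, A 3⁆ = 0 := by
    refine lie_zero h ht hf hw fun j => ?_
    obtain ⟨k1, k2⟩ := key 3 (by decide) (by decide)
    obtain ⟨l1, l2⟩ := h0 3 (by decide) (by decide)
    fin_cases j
    · change ξ (A 3 (f 0)) = (w 0 : ℂ) • A 3 (f 0)
      rw [l1, k1]
    · change ξ (A 3 (f 1)) = (w 1 : ℂ) • A 3 (f 1)
      rw [l2, map_neg, k2, smul_neg]
    · change ξ (A 3 (f 2)) = (w 2 : ℂ) • A 3 (f 2)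
      rw [g32, map_zero, smul_zero]
    · change ξ (A 3 (f 3)) = (w 3 : ℂ) • A 3 (f 3)
      rw [g33, hw]
  refine ⟨![A 2, A 3], ?_, ?_, g22, g23, g32, g33⟩
  · intro i
    fin_cases i
    · exact hk2
    · exact hk3
  · intro i
    fin_cases i
    · exact hc2
    · exact hc3

/-- integrality of the Plücker coordinates at a prime divisor -/
theorem ge_plu {R : Subalgebra ℂ K} {ξ : Derivation ℂ K K} {J : Bra K} {a : ℝ}
    (hC : Cone4 R ξ J a) {u : RVal K} (hu : PDiv R u) {ω : Form K} (hω : IsReg R ω)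
    {A B : Derivation ℂ K K} {φ : K}
    (hφ : ∀ D D' g, ω D D' * brk J g = φ * dt ![A, B, D, D'] g) {x y : K} (hxv : u.Ge 0 x)
    (hyv : u.Ge 0 y) : u.Ge 0 (φ * (A x * B y - B x * A y)) := by
  obtain ⟨f, hfR, hf, hfv⟩ := ex_frame Helper76.D4.s_UN hC hu
  have hpr := fun i => pres_dfr hC.reg hfR hf i
  have hgw : ∀ i j, u.Ge 0 (ω (dfr J f i) (dfr J f j)) := fun i j =>
    ge_form hu hf hfv hω (hpr i) (hpr j)
  have hge : ∀ z, u.Ge 0 z → ∀ i, u.Ge 0 (dfr J f i z) := by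
    intro z hz i
    by_cases hz0 : z = 0
    · rw [hz0, map_zero]
      exact Or.inl rfl
    · exact ge_dfr hC hu hfR hf hfv i hz0 (hz.resolve_left hz0)
  have hgx := hge x hxv
  have hgy := hge y hyv
  have ex : ∀ (E : Derivation ℂ K K) (t : K), E t = E (f 0) * dfr J f 0 t +
      E (f 1) * dfr J f 1 t + E (f 2) * dfr J f 2 t + E (f 3) * dfr J f 3 t := by
    intro E t
    conv_lhs => rw [dfr_sum hC.alt hC.trdeg hf E]
    simp only [Fin.sum_univ_four, Derivation.add_apply, Derivation.smul_apply, smul_eq_mul]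
  have hd := dfr_apply hC.alt hf
  have key : ∀ i j, φ * dt ![A, B, dfr J f i, dfr J f j] f =
      ω (dfr J f i) (dfr J f j) * brk J f := fun i j => (hφ _ _ _).symm
  have k01 := key 0 1
  have k02 := key 0 2
  have k03 := key 0 3
  have k12 := key 1 2
  have k13 := key 1 3
  have k23 := key 2 3
  simp only [Helper87.D4.dt_eq, Matrix.cons_val_zero, Matrix.cons_val_one, Matrix.cons_val, hd]
    at k01 k02 k03 k12 k13 k23
  simp at k01 k02 k03 k12 k13 k23
  have e : φ * (A x * B y - B x * A y) = brk J f *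
      (ω (dfr J f 0) (dfr J f 1) * (dfr J f 2 x * dfr J f 3 y - dfr J f 3 x * dfr J f 2 y) -
      ω (dfr J f 0) (dfr J f 2) * (dfr J f 1 x * dfr J f 3 y - dfr J f 3 x * dfr J f 1 y) +
      ω (dfr J f 0) (dfr J f 3) * (dfr J f 1 x * dfr J f 2 y - dfr J f 2 x * dfr J f 1 y) +
      ω (dfr J f 1) (dfr J f 2) * (dfr J f 0 x * dfr J f 3 y - dfr J f 3 x * dfr J f 0 y) -
      ω (dfr J f 1) (dfr J f 3) * (dfr J f 0 x * dfr J f 2 y - dfr J f 2 x * dfr J f 0 y) +
      ω (dfr J f 2) (dfr J f 3) * (dfr J f 0 x * dfr J f 1 y - dfr J f 1 x * dfr J f 0 y)) := by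
    rw [ex A x, ex B y, ex A y, ex B x]
    linear_combination (dfr J f 2 x * dfr J f 3 y - dfr J f 3 x * dfr J f 2 y) * k01 -
      (dfr J f 1 x * dfr J f 3 y - dfr J f 3 x * dfr J f 1 y) * k02 +
      (dfr J f 1 x * dfr J f 2 y - dfr J f 2 x * dfr J f 1 y) * k03 +
      (dfr J f 0 x * dfr J f 3 y - dfr J f 3 x * dfr J f 0 y) * k12 -
      (dfr J f 0 x * dfr J f 2 y - dfr J f 2 x * dfr J f 0 y) * k13 +
      (dfr J f 0 x * dfr J f 1 y - dfr J f 1 x * dfr J f 0 y) * k23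
  have hq : ∀ i j, u.Ge 0 (dfr J f i x * dfr J f j y - dfr J f j x * dfr J f i y) := fun i j =>
    u.ge_sub (ge_mul0 (hgx i) (hgy j)) (ge_mul0 (hgx j) (hgy i))
  rw [e]
  refine ge_mul0 (Or.inr hfv.ge) ?_
  exact u.ge_add (u.ge_sub (u.ge_add (u.ge_add (u.ge_sub (ge_mul0 (hgw _ _) (hq _ _))
    (ge_mul0 (hgw _ _) (hq _ _))) (ge_mul0 (hgw _ _) (hq _ _)))
    (ge_mul0 (hgw _ _) (hq _ _))) (ge_mul0 (hgw _ _) (hq _ _)))
    (ge_mul0 (hgw _ _) (hq _ _))

/-- the kernel is spanned by the two derivations -/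
theorem ker_iff {J : Bra K} (h : IsAlt J) (ht : Algebra.trdeg ℂ K = 4) {ξ : Derivation ℂ K K}
    {f : Fin 4 → K} (hf : brk J f ≠ 0) {ω : Form K} (ha : ∀ D, ω D D = 0)
    (h01 : ω (dfr J f 0) (dfr J f 1) ≠ 0) (hf2 : f 2 ≠ 0) (hf3 : f 3 ≠ 0)
    {D : Fin 2 → Derivation ℂ K K} (hD : KF ξ ω f D) (E : Derivation ℂ K K) :
    (∀ B, ω E B = 0) ↔ ∃ x y : K, E = x • D 0 + y • D 1 := by
  constructor
  · intro hE
    refine ⟨E (f 2) / f 2, E (f 3) / f 3, ?_⟩
    set E' := E - ((E (f 2) / f 2) • D 0 + (E (f 3) / f 3) • D 1) with hE'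
    have h2 : E' (f 2) = 0 := by
      rw [hE', Derivation.sub_apply, Derivation.add_apply, Derivation.smul_apply,
        Derivation.smul_apply, hD.a2, hD.b2, smul_eq_mul, smul_eq_mul, mul_zero, add_zero,
        div_mul_cancel₀ _ hf2, sub_self]
    have h3 : E' (f 3) = 0 := by
      rw [hE', Derivation.sub_apply, Derivation.add_apply, Derivation.smul_apply,
        Derivation.smul_apply, hD.a3, hD.b3, smul_eq_mul, smul_eq_mul, mul_zero, zero_add,
        div_mul_cancel₀ _ hf3, sub_self]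
    have hk : ∀ B, ω E' B = 0 := by
      intro B
      rw [hE', map_sub, map_add, map_smul, map_smul, LinearMap.sub_apply, LinearMap.add_apply,
        LinearMap.smul_apply, LinearMap.smul_apply, hE, hD.ker, hD.ker, smul_zero, smul_zero,
        add_zero, sub_zero]
    have h0 : E' (f 0) = 0 := by
      have e := hk (dfr J f 1)
      rw [form_left ω (dfr_sum h ht hf E'), h2, h3, ha] at e
      simpa [h01] using e
    have h1 : E' (f 1) = 0 := by
      have e := hk (dfr J f 0)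
      rw [form_left ω (dfr_sum h ht hf E'), h2, h3, ha, form_swap ha (dfr J f 1) (dfr J f 0)] at e
      simpa [h01] using e
    have hz : E' = 0 := by
      rw [dfr_sum h ht hf E', Fin.sum_univ_four, h0, h1, h2, h3, zero_smul, zero_smul, zero_smul,
        zero_smul, add_zero, add_zero, add_zero]
    rw [hE', sub_eq_zero] at hz
    exact hz
  · rintro ⟨x, y, rfl⟩ B
    rw [map_add, map_smul, map_smul, LinearMap.add_apply, LinearMap.smul_apply,
      LinearMap.smul_apply, hD.ker, hD.ker, smul_zero, smul_zero, add_zero]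

/-- **S_KER** -/
theorem s_KER : S_KER := by
  intro K _ _ R ξ J a hC ω k hω hcl hhom hne hpf
  obtain ⟨f, w, hw, hf, h01⟩ := ex_frame_ne hC.toIsCone hC.alt hC.trdeg hω.alt hne
  obtain ⟨D, hD⟩ := ex_KF hC.alt hC.trdeg hf hw hω.alt hhom h01 (hpf _)
  have hd := dfr_apply hC.alt hf
  have hf0 : ∀ i, f i ≠ 0 := by
    intro i h0
    have h1 := hd i i
    rw [h0, map_zero, if_pos rfl] at h1
    exact zero_ne_one h1
  have hP : D 0 (f 2) * D 1 (f 3) - D 0 (f 3) * D 1 (f 2) = f 2 * f 3 := by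
    rw [hD.a2, hD.a3, hD.b2, hD.b3, zero_mul, sub_zero]
  have hP0 : D 0 (f 2) * D 1 (f 3) - D 0 (f 3) * D 1 (f 2) ≠ 0 := by
    rw [hP]
    exact mul_ne_zero (hf0 2) (hf0 3)
  have hφ := form_eq hC.alt hC.trdeg hω.alt (hD.ker 0) (hD.ker 1) hf hP0
  rw [hP] at hφ
  have hker := ker_iff hC.alt hC.trdeg hf hω.alt h01 (hf0 2) (hf0 3) hD
  refine ⟨D, brk J f * ω (dfr J f 0) (dfr J f 1) / (f 2 * f 3),
    ⟨?_, ?_, ?_, hD.com, ?_, ?_⟩, hker⟩
  · exact div_ne_zero (mul_ne_zero hf h01) (mul_ne_zero (hf0 2) (hf0 3))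
  · rw [eig_div (mul_ne_zero (hf0 2) (hf0 3)) (eig_mul (eig_brk hC.alt hC.hom hw)
      (eig_form hC.alt hC.trdeg hf hw hhom 0 1)) (eig_mul (hw 2) (hw 3))]
    congr 2
    ring
  · intro x y hxy
    have e2 := congrArg (fun E : Derivation ℂ K K => E (f 2)) hxy
    have e3 := congrArg (fun E : Derivation ℂ K K => E (f 3)) hxy
    simp only [Derivation.add_apply, Derivation.smul_apply, hD.a2, hD.a3, hD.b2, hD.b3,
      Derivation.zero_apply, smul_eq_mul, mul_zero, add_zero, zero_add] at e2 e3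
    exact ⟨(mul_eq_zero.1 e2).resolve_right (hf0 2), (mul_eq_zero.1 e3).resolve_right (hf0 3)⟩
  · rw [← hker]
    intro B
    have e := hcl (D 0) (D 1) B
    have hk : ∀ i E, ω E (D i) = 0 := fun i E => by
      rw [form_swap hω.alt, hD.ker, neg_zero]
    rw [hD.ker 1, hD.ker 0, hD.ker 0, hk 1, hk 0, map_zero, map_zero, map_zero] at e
    linear_combination -e
  · intro u hu F G hF hG
    exact ge_plu hC hu hω hφ hF hG

end Pool.Agent.Helper46.D4.Ker
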