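import Pool.Agent.Helper46.D4.Stmts
import Pool.Agent.Helper46.D4.EX2t

/-!
# Project D4 (MP_e1889a_ag): assembly of `S_Pn`
-/

set_option autoImplicit false

namespace Pool.Agent.Helper46.D4

open Module Filter Topology Polynomial Pool.Agent.Helper37.SD Pool.Agent.Helper20.TS
  Pool.Agent.Helper88.D4

variable {K : Type} [Field K] [Algebra ℂ K]

theorem val_pow (u : RVal K) {x : K} (hx : x ≠ 0) (n : ℕ) : u.val (x ^ n) = n * u.val x := by
  have h1 : u.val 1 = 0 := by
    have := u.map_const 1 one_ne_zero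
    rwa [map_one] at this
  induction n with
  | zero => rw [pow_zero, h1, Nat.cast_zero, zero_mul]
  | succ n ih =>
    rw [pow_succ, u.map_mul _ _ (pow_ne_zero n hx) hx, ih, Nat.cast_add, Nat.cast_one]
    ring

theorem val_div (u : RVal K) {x y : K} (hx : x ≠ 0) (hy : y ≠ 0) :
    u.val (x / y) = u.val x - u.val y := by
  have h := u.map_mul (x / y) y (div_ne_zero hx hy) hy
  rw [div_mul_cancel₀ x hy] at h
  linarith

theorem val_sum {ι : Type} (u : RVal K) (s : Finset ι) (f : ι → K) (c : ℝ)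
    (h : ∀ i ∈ s, u.Ge c (f i)) : u.Ge c (∑ i ∈ s, f i) := by
  classical
  induction s using Finset.induction_on with
  | empty => exact Or.inl Finset.sum_empty
  | insert i s hi ih =>
    rw [Finset.sum_insert hi]
    exact u.ge_add (h i (Finset.mem_insert_self i s))
      (ih fun k hk => h k (Finset.mem_insert_of_mem hk))

/-- a valuation which is not negative on a ring is not negative on integral elements -/
theorem val_integral (u : RVal K) (B : Subalgebra ℂ K) (hB : ∀ y ∈ B, y ≠ 0 → 0 ≤ u.val y)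
    {x : K} (hx : IsIntegral B x) (h0 : x ≠ 0) : 0 ≤ u.val x := by
  by_contra hneg
  push Not at hneg
  obtain ⟨p, hp, he⟩ := hx
  rw [eval₂_eq_sum_range, Finset.sum_range_succ, hp.coeff_natDegree, map_one, one_mul] at he
  have h1 : x ^ p.natDegree = -∑ i ∈ Finset.range p.natDegree, algebraMap B K (p.coeff i) * x ^ i :=
    eq_neg_of_add_eq_zero_right he
  have hn : 0 < p.natDegree := by
    by_contra hn
    have : p.natDegree = 0 := by omega
    rw [this] at h1
    simp at h1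
  have h2 : u.Ge ((p.natDegree - 1 : ℝ) * u.val x)
      (∑ i ∈ Finset.range p.natDegree, algebraMap B K (p.coeff i) * x ^ i) := by
    refine val_sum u _ _ _ fun i hi => ?_
    have hi' := Finset.mem_range.mp hi
    by_cases hc : algebraMap B K (p.coeff i) = 0
    · rw [hc, zero_mul]
      exact Or.inl rfl
    · right
      rw [u.map_mul _ _ hc (pow_ne_zero i h0), val_pow u h0]
      have h3 : 0 ≤ u.val (algebraMap B K (p.coeff i)) := hB _ (p.coeff i).2 hc
      have h4 : (i : ℝ) ≤ p.natDegree - 1 := by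
        have : i + 1 ≤ p.natDegree := hi'
        have h5 : ((i + 1 : ℕ) : ℝ) ≤ p.natDegree := Nat.cast_le.mpr this
        push_cast at h5
        linarith
      nlinarith
  have h5 : u.Ge ((p.natDegree - 1 : ℝ) * u.val x) (x ^ p.natDegree) := by
    rw [h1]
    have := u.ge_smul (-1) h2
    rwa [neg_smul, one_smul] at this
  rcases h5 with h5 | h5
  · exact pow_ne_zero _ h0 h5
  · rw [val_pow u h0] at h5
    nlinarith

theorem eig_pow (ξ : Derivation ℂ K K) {x : K} {c : ℂ} (h : ξ x = c • x) (n : ℕ) :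
    ξ (x ^ n) = (n * c : ℂ) • x ^ n := by
  induction n with
  | zero => rw [pow_zero, Derivation.map_one_eq_zero, Nat.cast_zero, zero_mul, zero_smul]
  | succ n ih =>
    rw [pow_succ, Derivation.leibniz, ih, h, Nat.cast_add, Nat.cast_one]
    simp only [smul_eq_mul, Algebra.smul_def, map_add, map_mul, map_one, map_natCast]
    ring

theorem eig_div (ξ : Derivation ℂ K K) {x y : K} {c d : ℂ} (h : ξ x = c • x) (h' : ξ y = d • y)
    (hy : y ≠ 0) : ξ (x / y) = (c - d) • (x / y) := by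
  rw [div_eq_mul_inv, Derivation.leibniz, Derivation.leibniz_inv, h, h']
  simp only [smul_eq_mul, Algebra.smul_def, map_sub]
  field_simp
  ring

theorem le_slopeAlg (R : Subalgebra ℂ K) (h φ : K) (j : ℕ) (hφ : φ ∈ Sj R h j) (h0 : φ ≠ 0) :
    R ≤ slopeAlg R h φ j hφ h0 := fun x hx => ⟨0, x, ⟨hx, by
  rw [mul_zero, pow_zero, mul_one]
  exact hx⟩, by rw [pow_zero, div_one]⟩

theorem le_Ah (A : Subalgebra ℂ K) (h : K) : A ≤ Ah A h := le_sup_left

theorem h_mem_Ah (A : Subalgebra ℂ K) (h : K) : h ∈ Ah A h := by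
  have h1 : h ∈ (IntermediateField.adjoin ℂ {h}).toSubalgebra :=
    IntermediateField.mem_adjoin_simple_self ℂ h
  exact (le_sup_right : _ ≤ A ⊔ (IntermediateField.adjoin ℂ {h}).toSubalgebra) h1

theorem s_Pn (hV : S_V5) (hNI : S_NI) (hOPT : S_OPT) (hSP : S_SP) (hINT : S_INT)
    (hLB : S_LB) : S_Pn := by
  intro K _ _ R ξ J v a V hC hM h b k α hξ hh hFG hb hk hα hreg
  obtain ⟨φ, j, δ, o⟩ := hOPT K R ξ J a hC h hξ hh hFG
  have hM' : IsMin R ξ J v a V := ⟨hM.wt, hM.vol, hM.apos, hM.vpos, fun w a' V' hc hl hv =>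
    hM.min w a' V' hc hl fun ε hε => (hv ε hε).frequently⟩
  have hbi := hINT K R ξ J v a V hC hM' α b h hα hreg hh hb
  by_contra hlt
  push Not at hlt
  have hδ := o.dpos
  -- a rational number between `k / δ` and `a / (2 δ)`
  have hlt' : max (k / δ) 0 < a / (2 * δ) := by
    rw [max_lt_iff]
    refine ⟨?_, div_pos hM.apos (by positivity)⟩
    rw [div_lt_div_iff₀ hδ (by positivity)]
    nlinarith
  obtain ⟨q, hq1, hq2⟩ := exists_rat_btwn hlt'
  have hq0 : (0 : ℝ) < q := lt_of_le_of_lt (le_max_right _ _) hq1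
  have hqk : k / δ < q := lt_of_le_of_lt (le_max_left _ _) hq1
  have hqpos : 0 < q := by exact_mod_cast hq0
  obtain ⟨s, hs⟩ : ∃ s : ℕ, (s : ℤ) = q.num := ⟨q.num.toNat, by
    rw [Int.toNat_of_nonneg (Rat.num_nonneg.mpr hqpos.le)]⟩
  have hr : (0 : ℝ) < (q.den : ℝ) := by exact_mod_cast q.den_pos
  have hqe : (q : ℝ) = (s : ℝ) / (q.den : ℝ) := by
    have h1 : (q : ℝ) = ((q.num : ℤ) : ℝ) / (q.den : ℝ) := by
      rw [Rat.cast_def]
    rw [h1, ← hs, Int.cast_natCast]
  set r := q.den with hrdef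
  have hdeg : (r : ℝ) * k - s * δ < 0 := by
    rw [hqe, div_lt_div_iff₀ hδ hr] at hqk
    nlinarith
  set x : K := b ^ r / φ ^ s with hx
  have hx0 : x ≠ 0 := div_ne_zero (pow_ne_zero _ hb) (pow_ne_zero _ o.ne)
  have hxi : ξ x = ((r * k - s * δ : ℝ) : ℂ) • x := by
    rw [hx, eig_div ξ (eig_pow ξ hk r) (eig_pow ξ o.deg s) (pow_ne_zero _ o.ne)]
    push_cast
    rfl
  set A := slopeAlg R h φ j o.mem o.ne with hA
  have hni := hNI K A ξ h hξ (hSP K R ξ hC.toIsCone h φ j δ hξ o) x _ hx0 hxi hdeg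
  have hfr : IsFrac A := fun y => by
    obtain ⟨c, hc, d, hd, hd0, hy⟩ := hC.frac y
    exact ⟨c, le_slopeAlg R h φ j o.mem o.ne hc, d, le_slopeAlg R h φ j o.mem o.ne hd, hd0, hy⟩
  obtain ⟨u, hu, hux, hun, y, z, hy, hz, hind⟩ := s_EX2t K A hfr o.fg hC.trdeg h hh x hni
  have hAR : Ah R h ≤ Ah A h := sup_le_sup_right (le_slopeAlg R h φ j o.mem o.ne) _
  have hub : 0 ≤ u.val b := val_integral u (Ah R h) (fun y hy h0 => hun y (hAR hy) h0) hbi hb
  have hux' : (r : ℝ) * u.val b < s * u.val φ := by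
    rw [hx, val_div u (pow_ne_zero _ hb) (pow_ne_zero _ o.ne), val_pow u hb, val_pow u o.ne] at hux
    linarith
  have huφ : 0 < u.val φ := by
    have h1 : 0 < (s : ℝ) * u.val φ := lt_of_le_of_lt (mul_nonneg hr.le hub) hux'
    by_contra hn
    push Not at hn
    have h2 := mul_nonpos_of_nonneg_of_nonpos (Nat.cast_nonneg s : (0 : ℝ) ≤ s) hn
    linarith
  have hld := hLB K R ξ J a hC α b h hα hreg hb φ j o.mem o.ne u hu huφ hun ![y, z]
    (fun i => by fin_cases i <;> assumption) hind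
  have hj : (0 : ℝ) < j := Nat.cast_pos.mpr o.jpos
  have hsl : ∀ (i : ℕ) (ψ : K), ψ ∈ Sj R h i → ψ ≠ 0 → i * (u.val φ / j) ≤ u.val ψ := by
    intro i ψ hψ hψ0
    have h1 : ψ ^ j / φ ^ i ∈ A := by
      refine ⟨i, ψ ^ j, ⟨R.pow_mem hψ.1 j, ?_⟩, rfl⟩
      have := R.pow_mem hψ.2 j
      rwa [mul_pow, ← pow_mul, mul_comm i j] at this
    have h2 := hun _ (le_Ah A h h1) (div_ne_zero (pow_ne_zero _ hψ0) (pow_ne_zero _ o.ne))
    rw [val_div u (pow_ne_zero _ hψ0) (pow_ne_zero _ o.ne), val_pow u hψ0, val_pow u o.ne] at h2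
    rw [← mul_div_assoc, div_le_iff₀ hj]
    linarith
  have hh0 : h ≠ 0 := fun h0 => hh ⟨0, by rw [h0, map_zero]⟩
  have huh : 0 ≤ u.val h := hun h (h_mem_Ah A h) hh0
  have hfin := hV K R ξ J v a V hC hM h hξ hh u (u.val b) (u.val φ / j) (div_pos huφ hj) huh hld
    hsl j φ δ o.jpos o.mem o.ne o.deg
  have h1 : a * j * (u.val φ / j) = a * u.val φ := by
    field_simp
  rw [h1] at hfin
  -- `a u(φ) ≤ 2 δ u(b) < 2 δ (s / r) u(φ) < a u(φ)`
  rw [hqe, div_lt_div_iff₀ hr (by positivity)] at hq2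
  have h2 : a * u.val φ * r < a * r * u.val φ := by
    calc a * u.val φ * r ≤ 2 * δ * u.val b * r := mul_le_mul_of_nonneg_right hfin hr.le
      _ = 2 * δ * (r * u.val b) := by ring
      _ < 2 * δ * (s * u.val φ) := mul_lt_mul_of_pos_left hux' (by positivity)
      _ = (s * (2 * δ)) * u.val φ := by ring
      _ < (a * r) * u.val φ := mul_lt_mul_of_pos_right hq2 huφ
  nlinarith

end Pool.Agent.Helper46.D4
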