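import Pool.Agent.Helper46.D4.PnFin
import Pool.Agent.Helper73.D4.OPTf

/-!
# Project D4 (MP_e1889a_ag): theorem P without hypotheses
-/

set_option autoImplicit false

namespace Pool.Agent.Helper46.D4

open Pool.Agent.Helper88.D4

theorem s_Pn0 : S_Pn := s_PnOf Pool.Agent.Helper73.D4.s_OPT'

end Pool.Agent.Helper46.D4
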