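import Pool.Agent.Helper46.D4.Pn
import Pool.Agent.Helper37.D4.V5
import Pool.Agent.Helper37.D4.T0
import Pool.Agent.Helper14.D4.Deg
import Pool.Agent.Helper20.D4.AL
import Pool.Agent.Helper85.D4.Th
import Pool.Agent.Helper85.D4.Tame
import Pool.Agent.Helper75.D4.LDfr
import Pool.Agent.Helper96.D4.Reg
import Pool.Agent.Helper76.D4.Fin
import Pool.Agent.Helper12.D4.Ai
import Pool.Agent.Helper11.D4.EX1

/-!
# Project D4 (MP_e1889a_ag): theorem P, closed
-/

set_option autoImplicit false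

namespace Pool.Agent.Helper46.D4

open Pool.Agent.Helper88.D4

theorem s_LDfr0 : S_LDfr :=
  Pool.Agent.Helper75.D4.s_LDfr Pool.Agent.Helper85.D4.s_TAME Pool.Agent.Helper12.D4.s_AI
    Pool.Agent.Helper12.D4.s_JD

theorem s_REG0 : S_REG :=
  Pool.Agent.Helper96.D4.s_REG Pool.Agent.Helper12.D4.s_AI Pool.Agent.Helper76.D4.s_UN
    Pool.Agent.Helper11.D4.s_EX1

/-- Theorem P from the existence of optimal elements. -/
theorem s_PnOf (hOPT : S_OPT) : S_Pn :=
  s_Pn Pool.Agent.Helper37.D4.s_V5 Pool.Agent.Helper14.D4.s_NI hOPT Pool.Agent.Helper14.D4.s_SP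
    (Pool.Agent.Helper85.D4.s_INT s_LDfr0 Pool.Agent.Helper37.D4.s_T0
      (Pool.Agent.Helper85.D4.s_TH s_REG0 Pool.Agent.Helper76.D4.s_UN
        Pool.Agent.Helper11.D4.s_EX1))
    (Pool.Agent.Helper20.D4.s_LB Pool.Agent.Helper20.D4.s_AL s_LDfr0)

end Pool.Agent.Helper46.D4
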