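import Pool.Agent.Helper88.D4.Stmts4
import Pool.Agent.Helper38.D4.W0
import Pool.Agent.Helper12.D4.Ai

/-!
# Project D4 (MP_e1889a_ag): the leading term of the Poisson bracket of a germ
-/

set_option autoImplicit false

namespace Pool.Agent.Helper46.D4

open Module IsLocalRing Pool.Agent.Helper37.SD Pool.Agent.Helper20.TS Pool.Agent.Helper11.SY
  Pool.Agent.Helper20.LT Pool.Agent.Helper88.D4

section ext

variable {K : Type} [Field K] [Algebra ℂ K] {R : Subalgebra ℂ K} {ξ : Derivation ℂ K K}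

theorem isH_ex (hC : IsCone R ξ) (D : Derivation ℂ K K) (hD : D ≠ 0) :
    ∃ b x, IsH R ξ b x ∧ D x ≠ 0 := by
  by_contra hcon
  push Not at hcon
  apply hD
  refine der_eq_zero hC.frac fun x hx => ?_
  have h2 := hC.span x hx
  clear hx
  induction h2 using Submodule.span_induction with
  | mem y hy =>
    obtain ⟨hy1, c, -, hc⟩ := hy
    exact hcon c y ⟨hy1, hc⟩
  | zero => exact map_zero D
  | add y z _ _ hy hz => rw [map_add, hy, hz, add_zero]
  | smul c y _ hy => rw [Derivation.map_smul, hy, smul_zero]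

theorem der_ext_H (hC : IsCone R ξ) {D D' : Derivation ℂ K K}
    (h : ∀ b x, IsH R ξ b x → D x = D' x) : D = D' := by
  by_contra hcon
  obtain ⟨b, x, hx, hne⟩ := isH_ex hC (D - D') (sub_ne_zero.mpr hcon)
  exact hne (by rw [Derivation.sub_apply, h b x hx, sub_self])

/-- There are homogeneous elements of `R` with nonzero bracket. -/
theorem hom_frame {J : Bra K} (hC : IsCone R ξ) (hJ : IsAlt J) :
    ∃ (b : Fin 4 → ℝ) (z : Fin 4 → K), (∀ i, IsH R ξ (b i) (z i)) ∧ brk J z ≠ 0 := by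
  have hne : ∀ (D : Derivation ℂ K K) (x : K), D x ≠ 0 → D ≠ 0 := by
    intro D x hx h
    exact hx (by rw [h]; rfl)
  obtain ⟨x, y, z, w, h0⟩ := hJ.ne
  obtain ⟨bx, x', hx', h1⟩ := isH_ex hC _ (hne _ _ h0)
  have h2 : J x' z w y ≠ 0 := by rw [hJ.s1]; exact neg_ne_zero.mpr h1
  obtain ⟨b2, y', hy', h3⟩ := isH_ex hC _ (hne _ _ h2)
  have h4 : J x' y' w z ≠ 0 := by
    have e1 : J x' z w y' = - J y' z w x' := hJ.s1 _ _ _ _
    have e2 : J z y' w x' = - J y' z w x' := by rw [hJ.s2]; rfl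
    have e3 : J x' y' w z = - J z y' w x' := hJ.s1 _ _ _ _
    rw [e3, e2, neg_neg]
    intro h
    exact h3 (by rw [e1, h, neg_zero])
  obtain ⟨b3, z', hz', h5⟩ := isH_ex hC _ (hne _ _ h4)
  have h6 : J x' y' z' w ≠ 0 := by
    have e1 : J x' y' w z' = - J z' y' w x' := hJ.s1 _ _ _ _
    have e2 : J z' w y' x' = - J z' y' w x' := by rw [hJ.s3]; rfl
    have e3 : J w z' y' x' = - J z' w y' x' := by rw [hJ.s2]; rfl
    have e4 : J w y' z' x' = - J w z' y' x' := by rw [hJ.s3]; rfl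
    have e5 : J x' y' z' w = - J w y' z' x' := hJ.s1 _ _ _ _
    rw [e5, e4, e3, e2, neg_neg, neg_neg]
    intro h
    exact h5 (by rw [e1, h, neg_zero])
  obtain ⟨b4, w', hw', h7⟩ := isH_ex hC _ (hne _ _ h6)
  refine ⟨![b4, bx, b2, b3], ![w', x', y', z'], ?_, h7⟩
  intro i
  fin_cases i
  exacts [hw', hx', hy', hz']

/-- `E` is a derivation of the bracket if this holds for homogeneous elements of `R`. -/
theorem homBra_of_hom {J : Bra K} {a : ℝ} (hC : Cone4 R ξ J a) (E : Derivation ℂ K K) (t : ℂ)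
    (h : ∀ (b : Fin 4 → ℝ) (z : Fin 4 → K), (∀ i, IsH R ξ (b i) (z i)) →
      E (J (z 1) (z 2) (z 3) (z 0)) = J (z 1) (z 2) (z 3) (E (z 0)) +
        J (E (z 1)) (z 2) (z 3) (z 0) + J (z 1) (E (z 2)) (z 3) (z 0) +
        J (z 1) (z 2) (E (z 3)) (z 0) - t • J (z 1) (z 2) (z 3) (z 0)) : HomBra E t J := by
  obtain ⟨b, z, hz, h0⟩ := hom_frame hC.toIsCone hC.alt
  obtain ⟨-, h2, -⟩ := Pool.Agent.Helper12.D4.s_AI K J hC.trdeg hC.alt
  obtain ⟨-, h4⟩ := h2 z h0
  have hzz : ∀ E : Derivation ℂ K K, (∀ i, E (z i) = 0) → E = 0 := by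
    intro E hE
    rw [h4 E]
    exact Finset.sum_eq_zero fun i _ => by rw [hE i, zero_smul]
  have hJ' := Pool.Agent.Helper38.W0.alt_of hC.alt
  have h5 := Pool.Agent.Helper38.W0.zero_of_frame
    (Pool.Agent.Helper38.W0.comb_alt hJ' (Pool.Agent.Helper38.W0.lie_alt hJ' E)
      (algebraMap ℂ K t)) z hzz (by
    change Pool.Agent.Helper38.W0.lie E J (z 1) (z 2) (z 3) (z 0) +
      algebraMap ℂ K t * J (z 1) (z 2) (z 3) (z 0) = 0
    rw [Pool.Agent.Helper38.W0.lie_apply, h b z hz, Algebra.smul_def]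
    ring)
  intro x y z' w
  have h6 := congrArg (fun D : Derivation ℂ K K => D x) (h5 y z' w)
  simp only [Derivation.add_apply, Derivation.smul_apply, Derivation.zero_apply,
    smul_eq_mul, Pool.Agent.Helper38.W0.lie_apply] at h6
  rw [Algebra.smul_def]
  linear_combination h6

end ext

section gr

variable {R : Type} [CommRing R] [Algebra ℂ R] [IsLocalRing R] {K : Type} [Field K]
  [Algebra ℂ K] {w : CVal R} {R₀ : Subalgebra ℂ K} {ξ : Derivation ℂ K K} {sym : ℝ → R → K}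

theorem gr_zero (h : GrL w R₀ ξ sym) (c : ℝ) : sym c 0 = 0 :=
  (h.zero_iff c 0 (ge_zero w c)).mpr (gt_zero w c)

omit [Algebra ℂ R] in
theorem gr_ge_neg (w : CVal R) (c : ℝ) {x : R} (hx : (c : WithTop ℝ) ≤ w.v x) :
    (c : WithTop ℝ) ≤ w.v (-x) := by rwa [w.v.map_neg]

theorem gr_neg (h : GrL w R₀ ξ sym) (c : ℝ) {x : R} (hx : (c : WithTop ℝ) ≤ w.v x) :
    sym c (-x) = -sym c x := by
  have h1 := h.add c x (-x) hx (gr_ge_neg w c hx)
  rw [add_neg_cancel, gr_zero h] at h1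
  exact (neg_eq_of_add_eq_zero_right h1.symm).symm

theorem gr_sub (h : GrL w R₀ ξ sym) (c : ℝ) {x y : R} (hx : (c : WithTop ℝ) ≤ w.v x)
    (hy : (c : WithTop ℝ) ≤ w.v y) : sym c (x - y) = sym c x - sym c y := by
  rw [sub_eq_add_neg, h.add c x (-y) hx (gr_ge_neg w c hy), gr_neg h c hy, sub_eq_add_neg]

theorem gr_smul (h : GrL w R₀ ξ sym) (c : ℝ) (t : ℂ) {x : R} (hx : (c : WithTop ℝ) ≤ w.v x) :
    sym c (t • x) = t • sym c x := by
  have h1 := h.mul 0 c (algebraMap ℂ R t) x (by exact_mod_cast w.nonneg _) hx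
  rw [zero_add, h.const] at h1
  rw [Algebra.smul_def, Algebra.smul_def, h1]

theorem gr_ge_smul (w : CVal R) (c : ℝ) (t : ℂ) {x : R} (hx : (c : WithTop ℝ) ≤ w.v x) :
    (c : WithTop ℝ) ≤ w.v (t • x) := hx.trans (val_smul w t x)

/-- degrees of homogeneous elements -/
theorem gr_deg (h : GrL w R₀ ξ sym) {b c : ℝ} {x y : R} (hx : (b : WithTop ℝ) ≤ w.v x)
    (hy : (c : WithTop ℝ) ≤ w.v y) (e : sym b x = sym c y) (h0 : sym b x ≠ 0) : b = c := by
  have h1 := (h.mem b x hx).2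
  have h2 := (h.mem c y hy).2
  rw [← e, h1] at h2
  have h3 : ((b : ℂ) - (c : ℂ)) • sym b x = 0 := by rw [sub_smul, h2, sub_self]
  have h4 := (smul_eq_zero.mp h3).resolve_right h0
  have h5 : (b : ℂ) = (c : ℂ) := sub_eq_zero.mp h4
  exact_mod_cast h5

theorem ord_ge {S : Symp R 2} {s : ℝ} (ho : OrderGe S w s) {b c : ℝ} {x g : R}
    (hx : (b : WithTop ℝ) ≤ w.v x) (hg : (c : WithTop ℝ) ≤ w.v g) :
    ((b + c - s : ℝ) : WithTop ℝ) ≤ w.v (S.br x g) := by
  have h1 := (add_le_add hx hg).trans (ho x g)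
  by_cases h : S.br x g = 0
  · rw [h]
    exact ge_zero w _
  · obtain ⟨r, hr⟩ := real_val w h
    rw [hr] at h1 ⊢
    have h2 : b + c ≤ r + s := by exact_mod_cast h1
    have h3 : b + c - s ≤ r := by linarith
    exact_mod_cast h3

theorem ord_gt {S : Symp R 2} {s : ℝ} (ho : OrderGe S w s) {b c : ℝ} {x g : R}
    (hx : (b : WithTop ℝ) < w.v x) (hg : (c : WithTop ℝ) ≤ w.v g) :
    ((b + c - s : ℝ) : WithTop ℝ) < w.v (S.br x g) := by
  by_cases h : x = 0
  · rw [h, map_zero, Derivation.zero_apply]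
    exact gt_zero w _
  · obtain ⟨r, hr⟩ := real_val w h
    have h1 := hx
    rw [hr] at h1
    have h1 : b < r := by exact_mod_cast h1
    have h2 : (r : WithTop ℝ) ≤ w.v x := le_of_eq hr.symm
    refine lt_of_lt_of_le ?_ (ord_ge ho h2 hg)
    have h3 : b + c - s < r + c - s := by linarith
    exact_mod_cast h3

theorem ind_hyp {S : Symp R 2} {s : ℝ} (ho : OrderGe S w s) {b : ℝ} {x : R}
    (hx : (b : WithTop ℝ) ≤ w.v x) (g : R) :
    w.v g + ((b - s : ℝ) : WithTop ℝ) ≤ w.v (S.br x g) := by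
  by_cases h : g = 0
  · have h1 : S.br x g = 0 := by rw [h]; exact (S.br x).map_zero
    rw [h1, w.v.map_zero]
    exact le_top
  · obtain ⟨r, hr⟩ := real_val w h
    have h2 : (r : WithTop ℝ) ≤ w.v g := le_of_eq hr.symm
    have h3 := ord_ge ho hx h2
    have h4 : b + r - s = r + (b - s) := by ring
    rw [h4] at h3
    rw [hr]
    exact_mod_cast h3

/-- the symbol of a sum -/
theorem gr_sum (h : GrL w R₀ ξ sym) (c : ℝ) {ι : Type} (t : Finset ι) (x : ι → R)
    (hx : ∀ i ∈ t, (c : WithTop ℝ) ≤ w.v (x i)) :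
    (c : WithTop ℝ) ≤ w.v (∑ i ∈ t, x i) ∧ sym c (∑ i ∈ t, x i) = ∑ i ∈ t, sym c (x i) := by
  classical
  induction t using Finset.induction_on with
  | empty =>
    rw [Finset.sum_empty, Finset.sum_empty]
    exact ⟨ge_zero w c, gr_zero h c⟩
  | insert a t ha ih =>
    obtain ⟨h1, h2⟩ := ih fun i hi => hx i (Finset.mem_insert_of_mem hi)
    have h3 := hx a (Finset.mem_insert_self a t)
    rw [Finset.sum_insert ha, Finset.sum_insert ha]
    exact ⟨ge_add w c h3 h1, by rw [h.add c _ _ h3 h1, h2]⟩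

/-- lifts of homogeneous elements -/
theorem isH_lift (h : GrL w R₀ ξ sym) {b : ℝ} {y : K} (hy : IsH R₀ ξ b y) :
    ∃ x, (b : WithTop ℝ) ≤ w.v x ∧ sym b x = y := h.surj b y hy.1 hy.2

theorem isH_sym (h : GrL w R₀ ξ sym) {b : ℝ} {x : R} (hx : (b : WithTop ℝ) ≤ w.v x) :
    IsH R₀ ξ b (sym b x) := h.mem b x hx

/-- the volume field and the order of its values -/
theorem th_ge {S : Symp R 2} {A : ℝ} (hA : LogDisc S w A) {c : Fin 4 → ℝ} {F : Fin 4 → R}
    (hF : ∀ i, (c i : WithTop ℝ) ≤ w.v (F i)) :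
    ((∑ i, c i - A : ℝ) : WithTop ℝ) ≤ w.v (S.th F) := by
  have h1 := (Finset.sum_le_sum fun i (_ : i ∈ Finset.univ) => hF i).trans (hA.le F)
  by_cases h : S.th F = 0
  · rw [h]
    exact ge_zero w _
  · obtain ⟨r, hr⟩ := real_val w h
    rw [hr] at h1 ⊢
    have h2 : ∑ i, c i ≤ r + A := by exact_mod_cast h1
    have h3 : ∑ i, c i - A ≤ r := by linarith
    exact_mod_cast h3

end gr

section main

variable {R : Type} [CommRing R] [Algebra ℂ R] [IsDomain R] [IsLocalRing R] {K : Type} [Field K]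
  [Algebra ℂ K] {w : CVal R} {R₀ : Subalgebra ℂ K} {ξ : Derivation ℂ K K} {sym : ℝ → R → K}

/-- the Hamiltonian vector fields on the graded ring -/
theorem exists_ham (hIND : S_IND) (hG : GrL w R₀ ξ sym) (hC : IsCone R₀ ξ) {S : Symp R 2} {s : ℝ}
    (ho : OrderGe S w s) : ∃ h : K → Derivation ℂ K K, ∀ (b c : ℝ) (x g : R),
      (b : WithTop ℝ) ≤ w.v x → (c : WithTop ℝ) ≤ w.v g →
        h (sym b x) (sym c g) = sym (b + c - s) (S.br x g) := by
  classical
  have hD : ∀ (b : ℝ) (x : R), (b : WithTop ℝ) ≤ w.v x → ∃ D : Derivation ℂ K K,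
      ∀ (c : ℝ) (g : R), (c : WithTop ℝ) ≤ w.v g → D (sym c g) = sym (b + c - s) (S.br x g) := by
    intro b x hx
    obtain ⟨D, -, hD⟩ := hIND R w K R₀ ξ sym hG hC (S.br x) (b - s) (ind_hyp ho hx)
    refine ⟨D, fun c g hg => ?_⟩
    have h1 : b + c - s = c + (b - s) := by ring
    rw [hD c g hg, h1]
  choose D hD using hD
  refine ⟨fun y => if h : ∃ (b : ℝ) (x : R), (b : WithTop ℝ) ≤ w.v x ∧ sym b x = y ∧ y ≠ 0 then
    D h.choose h.choose_spec.choose h.choose_spec.choose_spec.1 else 0, ?_⟩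
  intro b c x g hx hg
  by_cases h0 : sym b x = 0
  · have h1 : ¬ ∃ (b' : ℝ) (x' : R), (b' : WithTop ℝ) ≤ w.v x' ∧ sym b' x' = sym b x ∧
        sym b x ≠ 0 := by
      rintro ⟨-, -, -, -, h⟩
      exact h h0
    simp only [dif_neg h1, Derivation.zero_apply]
    exact ((hG.zero_iff _ _ (ord_ge ho hx hg)).mpr
      (ord_gt ho ((hG.zero_iff b x hx).mp h0) hg)).symm
  · have h1 : ∃ (b' : ℝ) (x' : R), (b' : WithTop ℝ) ≤ w.v x' ∧ sym b' x' = sym b x ∧
        sym b x ≠ 0 := ⟨b, x, hx, rfl, h0⟩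
    simp only [dif_pos h1]
    obtain ⟨b', hb'⟩ : ∃ b', h1.choose = b' := ⟨_, rfl⟩
    have h2 := h1.choose_spec.choose_spec
    rw [hD _ _ h2.1 c g hg]
    have h3 : h1.choose = b := gr_deg hG h2.1 hx h2.2.1 (by rw [h2.2.1]; exact h0)
    obtain ⟨x', hx'⟩ : ∃ x', h1.choose_spec.choose = x' := ⟨_, rfl⟩
    rw [hx'] at h2 ⊢
    rw [h3] at h2 ⊢
    obtain ⟨h4, h5, -⟩ := h2
    have h6 : sym b (x' - x) = 0 := by rw [gr_sub hG b h4 hx, h5, sub_self]
    have h7 : (b : WithTop ℝ) ≤ w.v (x' - x) := by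
      rw [sub_eq_add_neg]
      exact ge_add w b h4 (gr_ge_neg w b hx)
    have h8 := ord_gt ho ((hG.zero_iff b _ h7).mp h6) hg
    have h9 := (hG.zero_iff _ _ h8.le).mpr h8
    rw [map_sub, Derivation.sub_apply, gr_sub hG _ (ord_ge ho h4 hg) (ord_ge ho hx hg)] at h9
    exact sub_eq_zero.mp h9

omit [IsDomain R] in
/-- a derivation of the graded ring compatible with the volume field -/
theorem homBra_ind (hG : GrL w R₀ ξ sym) {S : Symp R 2} {A : ℝ} (hA : LogDisc S w A)
    {J : Bra K} (hJ : LeadTh S w A sym J) (hC : Cone4 R₀ ξ J A) (D : Derivation ℂ K K)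
    (δ : Derivation ℂ R R) (d : ℝ) (t : ℂ)
    (hδ : ∀ (c : ℝ) x, (c : WithTop ℝ) ≤ w.v x → ((c + d : ℝ) : WithTop ℝ) ≤ w.v (δ x))
    (hD : ∀ (c : ℝ) x, (c : WithTop ℝ) ≤ w.v x → D (sym c x) = sym (c + d) (δ x))
    (hth : ∀ F : Fin 4 → R, δ (S.th F) = ∑ i, S.th (Function.update F i (δ (F i))) - t • S.th F)
    (htd : t ≠ 0 → d = 0) :
    HomBra D t J := by
  refine homBra_of_hom hC D t fun b z hz => ?_
  choose F hF1 hF2 using fun i => isH_lift hG (hz i)
  have hz' : z = fun i => sym (b i) (F i) := funext fun i => (hF2 i).symm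
  have hth1 := th_ge hA hF1
  have hupd : ∀ i, ∀ j, ((Function.update b i (b i + d) j : ℝ) : WithTop ℝ) ≤
      w.v (Function.update F i (δ (F i)) j) := by
    intro i j
    by_cases hij : j = i
    · subst hij
      rw [Function.update_self, Function.update_self]
      exact hδ _ _ (hF1 j)
    · rw [Function.update_of_ne hij, Function.update_of_ne hij]
      exact hF1 j
  have hsum : ∀ i, ∑ j, Function.update b i (b i + d) j - A = (∑ j, b j - A) + d := by
    intro i
    rw [Finset.sum_update_of_mem (Finset.mem_univ i)]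
    have h1 : ∑ j, b j = b i + ∑ j ∈ Finset.univ \ {i}, b j := by
      rw [← Finset.add_sum_erase _ _ (Finset.mem_univ i), Finset.sdiff_singleton_eq_erase]
    rw [h1]
    ring
  have hthi : ∀ i, (((∑ j, b j - A) + d : ℝ) : WithTop ℝ) ≤
      w.v (S.th (Function.update F i (δ (F i)))) := by
    intro i
    have h1 := th_ge hA (hupd i)
    rwa [hsum i] at h1
  have hbrk : ∀ i, sym ((∑ j, b j - A) + d) (S.th (Function.update F i (δ (F i)))) =
      brk J (fun j => Function.update z i (D (z i)) j) := by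
    intro i
    rw [← hsum i, ← hJ _ _ (hupd i)]
    congr 1
    funext j
    by_cases hij : j = i
    · subst hij
      rw [Function.update_self, Function.update_self, Function.update_self, ← hF2 j,
        hD _ _ (hF1 j)]
    · rw [Function.update_of_ne hij, Function.update_of_ne hij, Function.update_of_ne hij,
        ← hF2 j]
  have e1 : D (brk J z) = sym ((∑ j, b j - A) + d) (δ (S.th F)) := by
    rw [hz', hJ F b hF1, hD _ _ hth1]
  have e2 : sym ((∑ j, b j - A) + d) (δ (S.th F)) =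
      ∑ i, brk J (fun j => Function.update z i (D (z i)) j) - t • brk J z := by
    obtain ⟨h1, h2⟩ := gr_sum hG ((∑ j, b j - A) + d) Finset.univ
      (fun i => S.th (Function.update F i (δ (F i)))) (fun i _ => hthi i)
    rw [hth F]
    by_cases ht : t = 0
    · rw [ht, zero_smul, zero_smul, sub_zero, sub_zero, h2]
      exact Finset.sum_congr rfl fun i _ => hbrk i
    · have hd := htd ht
      have h3 : (((∑ j, b j - A) + d : ℝ) : WithTop ℝ) ≤ w.v (S.th F) := by
        rw [hd, add_zero]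
        exact hth1
      rw [gr_sub hG _ h1 (gr_ge_smul w _ t h3), h2, gr_smul hG _ t h3]
      congr 1
      · exact Finset.sum_congr rfl fun i _ => hbrk i
      · rw [hd, add_zero, ← hJ F b hF1, ← hz']
  have e3 := e1.trans e2
  rw [Fin.sum_univ_four] at e3
  simp only [brk] at e3
  have u01 : Function.update z 0 (D (z 0)) 1 = z 1 := Function.update_of_ne (by decide) _ _
  have u02 : Function.update z 0 (D (z 0)) 2 = z 2 := Function.update_of_ne (by decide) _ _
  have u03 : Function.update z 0 (D (z 0)) 3 = z 3 := Function.update_of_ne (by decide) _ _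
  have u10 : Function.update z 1 (D (z 1)) 0 = z 0 := Function.update_of_ne (by decide) _ _
  have u12 : Function.update z 1 (D (z 1)) 2 = z 2 := Function.update_of_ne (by decide) _ _
  have u13 : Function.update z 1 (D (z 1)) 3 = z 3 := Function.update_of_ne (by decide) _ _
  have u20 : Function.update z 2 (D (z 2)) 0 = z 0 := Function.update_of_ne (by decide) _ _
  have u21 : Function.update z 2 (D (z 2)) 1 = z 1 := Function.update_of_ne (by decide) _ _
  have u23 : Function.update z 2 (D (z 2)) 3 = z 3 := Function.update_of_ne (by decide) _ _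
  have u30 : Function.update z 3 (D (z 3)) 0 = z 0 := Function.update_of_ne (by decide) _ _
  have u31 : Function.update z 3 (D (z 3)) 1 = z 1 := Function.update_of_ne (by decide) _ _
  have u32 : Function.update z 3 (D (z 3)) 2 = z 2 := Function.update_of_ne (by decide) _ _
  rw [Function.update_self, Function.update_self, Function.update_self, Function.update_self,
    u01, u02, u03, u10, u12, u13, u20, u21, u23, u30, u31, u32] at e3
  exact e3

end main

theorem s_POI (hIND : S_IND) (hTHI : S_THI) : S_POI := by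
  intro R _ _ _ _ _ _ _ S w A hA K _ _ R₀ ξ sym hG J hJ hC s ho hfg
  obtain ⟨f, g, hfg, hfgs⟩ := hfg
  obtain ⟨h, hh⟩ := exists_ham hIND hG hC.toIsCone ho
  obtain ⟨hth1, hth2⟩ := hTHI R S
  refine ⟨h, ⟨?_, ?_, ?_, ?_⟩, ?_⟩
  · intro b c y z hy hz
    obtain ⟨x, hx, rfl⟩ := isH_lift hG hy
    obtain ⟨g, hg, rfl⟩ := isH_lift hG hz
    rw [hh b c x g hx hg]
    exact isH_sym hG (ord_ge ho hx hg)
  · intro b c y z hy hz
    obtain ⟨x, hx, rfl⟩ := isH_lift hG hy
    obtain ⟨g, hg, rfl⟩ := isH_lift hG hz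
    have h1 : c + b - s = b + c - s := by ring
    rw [hh b c x g hx hg, hh c b g x hg hx, h1, ← gr_neg hG _ (h1 ▸ ord_ge ho hg hx),
      br_skew S x g]
  · intro b y hy
    obtain ⟨x, hx, rfl⟩ := isH_lift hG hy
    refine homBra_ind hG hA hJ hC (h (sym b x)) (S.br x) (b - s) 0 (fun c g hg => ?_)
      (fun c g hg => ?_) (fun F => ?_) (fun h0 => absurd rfl h0)
    · have h1 : c + (b - s) = b + c - s := by ring
      rw [h1]
      exact ord_ge ho hx hg
    · have h1 : c + (b - s) = b + c - s := by ring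
      rw [h1]
      exact hh b c x g hx hg
    · rw [zero_smul, sub_zero]
      exact hth1 x F
  · have hf0 : f ≠ 0 := by
      rintro rfl
      exact hfg (by rw [map_zero, Derivation.zero_apply])
    have hg0 : g ≠ 0 := by
      rintro rfl
      exact hfg (map_zero _)
    obtain ⟨b, hb⟩ := real_val w hf0
    obtain ⟨c, hc⟩ := real_val w hg0
    obtain ⟨r, hr⟩ := real_val w hfg
    refine ⟨b, c, sym b f, sym c g, isH_sym hG hb.symm.le, isH_sym hG hc.symm.le, ?_⟩
    rw [hh b c f g hb.symm.le hc.symm.le]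
    intro h0
    have h1 := (hG.zero_iff _ _ (ord_ge ho hb.symm.le hc.symm.le)).mp h0
    rw [hr] at h1
    rw [hb, hc, hr] at hfgs
    have h2 : b + c - s < r := by exact_mod_cast h1
    have h3 : b + c = r + s := by exact_mod_cast hfgs
    linarith
  · intro E hL hE
    have hge : ∀ (c : ℝ) x, (c : WithTop ℝ) ≤ w.v x → (c : WithTop ℝ) ≤ w.v (E x) :=
      fun c x hx => hx.trans (hE x)
    obtain ⟨E₀, hP, hE₀⟩ := hIND R w K R₀ ξ sym hG hC.toIsCone E 0 (fun g => by
      rw [WithTop.coe_zero, add_zero]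
      exact hE g)
    have hE₀' : ∀ (c : ℝ) x, (c : WithTop ℝ) ≤ w.v x → E₀ (sym c x) = sym c (E x) := by
      intro c x hx
      rw [hE₀ c x hx, add_zero]
    refine ⟨E₀, hP, ?_, ?_, ?_⟩
    · refine der_ext_H hC.toIsCone fun b y hy => ?_
      obtain ⟨x, hx, rfl⟩ := isH_lift hG hy
      rw [Derivation.commutator_apply, hE₀' b x hx, hy.2, Derivation.map_smul, hE₀' b x hx,
        (hG.mem b _ (hge b x hx)).2, sub_self, Derivation.zero_apply]
    · refine homBra_ind hG hA hJ hC E₀ E 0 2 (fun c x hx => ?_) (fun c x hx => ?_)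
        (hth2 E hL) (fun _ => rfl)
      · rw [add_zero]
        exact hge c x hx
      · exact hE₀ c x hx
    · intro b c y z hy hz
      obtain ⟨x, hx, rfl⟩ := isH_lift hG hy
      obtain ⟨g, hg, rfl⟩ := isH_lift hG hz
      have h1 := ord_ge ho (hge b x hx) hg
      have h2 := ord_ge ho hx (hge c g hg)
      have h3 := ord_ge ho hx hg
      rw [hE₀' b x hx, hE₀' c g hg, hh b c x g hx hg, hh b c _ g (hge b x hx) hg,
        hh b c x _ hx (hge c g hg), hE₀' _ _ h3, hL, gr_sub hG _ (ge_add w _ h1 h2) h3,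
        hG.add _ _ _ h1 h2]

end Pool.Agent.Helper46.D4
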