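import Pool.Agent.Helper46.D4.ResU
import Pool.Agent.Helper20.D4.Res

/-!
# Project D4 (MP_e1889a_ag), `S_RES`: the pieces `S_FIN` and `S_UQ`
-/

set_option autoImplicit false

namespace Pool.Agent.Helper46.D4

open Module Pool.Agent.Helper37.SD Pool.Agent.Helper20.TS Pool.Agent.Helper88.D4
  Pool.Agent.Helper20.D4

theorem s_FIN : S_FIN := by
  intro K _ _ R ξ hR s hs hs0 h01 u₀ hu₀ hus₀
  obtain ⟨q, u, hu, hdist, hpos, hcov⟩ := exists_primes hR.fg hs hs0
  have hus : ∀ i, (u i).val s = 1 := by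
    intro i
    rcases h01 (u i) (hu i) with h | h
    · exact absurd h (hpos i).ne'
    · exact h
  obtain ⟨j, hj⟩ := hcov u₀ hu₀ (by rw [hus₀]; exact one_pos)
  obtain ⟨p, rfl⟩ : ∃ p, q = p + 1 := ⟨q - 1, by have := j.pos; omega⟩
  refine ⟨p, fun i => u (j.succAbove i), fun i => hu _, fun i i' h => hdist _ _ fun h' =>
    h (Fin.succAbove_right_injective h'), fun i => ?_, fun i => hus _, fun w hw => ?_⟩
  · by_contra hd
    obtain ⟨y, hy, hne⟩ := hdist j (j.succAbove i) (Fin.succAbove_ne j i).symm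
    apply hne
    rw [← not_dist_iff.mp hj y hy, not_dist_iff.mp hd y hy]
  · rcases h01 w hw with h | h
    · exact Or.inl h
    · right
      obtain ⟨i, hi⟩ := hcov w hw (by rw [h]; exact one_pos)
      by_cases hij : i = j
      · left
        rw [hij] at hi
        rw [not_dist_iff]
        intro y hy
        rw [not_dist_iff.mp hi y hy, not_dist_iff.mp hj y hy]
      · right
        obtain ⟨i', rfl⟩ := Fin.exists_succAbove_eq hij
        exact ⟨i', hi⟩

theorem s_UQ (hUN : S_UN) : S_UQ := by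
  intro K _ _ R ξ J a hC u u' hu hd s hs0 hus η e e' h h'
  exact (res_uniq hUN hC hu (fun h => hd (dist_symm' h)) hs0 hus h h').symm

end Pool.Agent.Helper46.D4
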