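import Pool.Agent.Helper46.D4.Defs

/-!
# Project D4, block B~ (MP_e1889a_ag): statements of the pieces of `S_Pn`
-/

set_option autoImplicit false

namespace Pool.Agent.Helper46.D4

open Module Filter Topology Polynomial Pool.Agent.Helper37.SD Pool.Agent.Helper20.TS
  Pool.Agent.Helper88.D4

/-! ## Integrality -/

/-- homogeneous functions of negative degree are not integral -/
def S_NI : Prop := ∀ (K : Type) [Field K] [Algebra ℂ K] (A : Subalgebra ℂ K)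
  (ξ : Derivation ℂ K K) (h : K), ξ h = 0 →
    (∀ x ∈ A, x ∈ Submodule.span ℂ {y | y ∈ A ∧ ∃ c : ℝ, 0 ≤ c ∧ ξ y = (c : ℂ) • y}) →
      ∀ (x : K) (γ : ℝ), x ≠ 0 → ξ x = (γ : ℂ) • x → γ < 0 → ¬ IsIntegral (Ah A h) x

/-- finitely many homogeneous generators of the algebra of the poles of `h` -/
def S_G1 : Prop := ∀ (K : Type) [Field K] [Algebra ℂ K] (R : Subalgebra ℂ K)
  (ξ : Derivation ℂ K K), IsCone R ξ → ∀ h : K, ξ h = 0 → (Sym R h).FG →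
    ∃ (n : ℕ) (x : Fin n → K) (i : Fin n → ℕ) (γ : Fin n → ℝ),
      (∀ k, x k ∈ Sj R h (i k) ∧ x k ≠ 0 ∧ ξ (x k) = (γ k : ℂ) • x k) ∧
      Sym R h = Algebra.adjoin ℂ (Set.range fun k => C (x k) * X ^ i k)

/-- a function of largest slope -/
def S_OPT : Prop := ∀ (K : Type) [Field K] [Algebra ℂ K] (R : Subalgebra ℂ K)
  (ξ : Derivation ℂ K K) (J : Bra K) (a : ℝ), Cone4 R ξ J a → ∀ h : K, ξ h = 0 → ¬ Cst h →
    (Sym R h).FG → ∃ (φ : K) (j : ℕ) (δ : ℝ), Opt R ξ h φ j δ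

/-- degrees in the algebra of quotients are nonnegative -/
def S_SP : Prop := ∀ (K : Type) [Field K] [Algebra ℂ K] (R : Subalgebra ℂ K)
  (ξ : Derivation ℂ K K), IsCone R ξ → ∀ (h φ : K) (j : ℕ) (δ : ℝ), ξ h = 0 →
    ∀ o : Opt R ξ h φ j δ, ∀ x ∈ slopeAlg R h φ j o.mem o.ne,
      x ∈ Submodule.span ℂ {y | y ∈ slopeAlg R h φ j o.mem o.ne ∧
        ∃ c : ℝ, 0 ≤ c ∧ ξ y = (c : ℂ) • y}

/-! ## Brackets -/

/-- `db ∧ dh` is regular -/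
def S_TH : Prop := ∀ (K : Type) [Field K] [Algebra ℂ K] (R : Subalgebra ℂ K)
  (ξ : Derivation ℂ K K) (J : Bra K) (a : ℝ), Cone4 R ξ J a → ∀ (α : Helper88.D4.One K)
    (b h : K), (∀ D, α D = b * D h) → Reg1 R α → ∀ y ∈ Ah R h, ∀ z ∈ Ah R h, J h y z b ∈ Ah R h

/-- `b dh ∧ dφ / φ` is regular on the algebra of quotients -/
def S_AL : Prop := ∀ (K : Type) [Field K] [Algebra ℂ K] (R : Subalgebra ℂ K)
  (ξ : Derivation ℂ K K) (J : Bra K) (a : ℝ), Cone4 R ξ J a → ∀ (α : Helper88.D4.One K)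
    (b h : K), (∀ D, α D = b * D h) → Reg1 R α → ∀ (φ : K) (j : ℕ) (hφ : φ ∈ Sj R h j)
      (h0 : φ ≠ 0), ∀ y ∈ Ah (slopeAlg R h φ j hφ h0) h, ∀ z ∈ Ah (slopeAlg R h φ j hφ h0) h,
        b * J h y z φ / φ ∈ Ah (slopeAlg R h φ j hφ h0) h

/-- `b` is integral over `R ⊗ ℂ(h)` -/
def S_INT : Prop := ∀ (K : Type) [Field K] [Algebra ℂ K] (R : Subalgebra ℂ K)
  (ξ : Derivation ℂ K K) (J : Bra K) (v : RVal K) (a V : ℝ), Cone4 R ξ J a → IsMin R ξ J v a V →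
    ∀ (α : Helper88.D4.One K) (b h : K), (∀ D, α D = b * D h) → Reg1 R α → ¬ Cst h → b ≠ 0 →
      IsIntegral (Ah R h) b

/-- `A(u) ≤ u(b)` -/
def S_LB : Prop := ∀ (K : Type) [Field K] [Algebra ℂ K] (R : Subalgebra ℂ K)
  (ξ : Derivation ℂ K K) (J : Bra K) (a : ℝ), Cone4 R ξ J a → ∀ (α : Helper88.D4.One K)
    (b h : K), (∀ D, α D = b * D h) → Reg1 R α → b ≠ 0 → ∀ (φ : K) (j : ℕ)
      (hφ : φ ∈ Sj R h j) (h0 : φ ≠ 0), ∀ u : RVal K, DVal u → 0 < u.val φ →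
        (∀ y ∈ Ah (slopeAlg R h φ j hφ h0) h, y ≠ 0 → 0 ≤ u.val y) →
        ∀ y : Fin 2 → K, (∀ i, y i ∈ Ah (slopeAlg R h φ j hφ h0) h) →
          RInd u (Fin.cons h y : Fin 3 → K) → LDLe J u (u.val b)

end Pool.Agent.Helper46.D4
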